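import Pool.Agent.Helper54.SP.StmtsW
import Pool.Agent.Helper55.Compose

/-!
Assembly: hardness of `SPR_d` for every fixed `d ≥ 5` from the modules.
-/

namespace Pool.Agent.Helper54.SP

open Finset Pool.Agent.Helper54.Poly

/-- the reduction -/
def mainG (D : List Bool → List Be) (m : ℕ) (u : List Bool) : List Bool :=
  icode (NN (wiring (Kn (D u).length) (bil (D u))) + m)
    (fac (wiring (Kn (D u).length) (bil (D u))) (nwr (Kn (D u).length) (bil (D u))) m)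

theorem main_pt (hEK : ST_EK) (hEF : ST_EF) (hEI : ST_EI) (hEW : ST_EW) (hEB : ST_EB)
    (D : List Bool → List Be) (hD : PT D) (m : ℕ) : PT (mainG D m) := by
  obtain ⟨h1, h2⟩ := hEB D hD
  obtain ⟨h3, h4⟩ := hEW _ _ h2 h1
  have h5 := hEF m _ _ h3 h4
  have h6 := (hEK _ (fun _ : List Bool => (0 : ℕ)) h3 (PT.const 0)).2.2.2.2.2.2.2
  exact hEI _ _ (PT.add h6 (PT.const m)) h5

theorem main_sem (hRW : ST_RW) (hRS : ST_RS) (hRC : ST_RC) (hWWF : ST_WWF) (hWS : ST_WS)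
    (hWC : ST_WC) (hCOMP : ST_COMP) (hSND : ST_SND) (hFMEM : ST_FMEM) (hIJ : ST_IJ)
    (E : List Be) (hE : E ≠ []) (hB : BBelow E) (m : ℕ) (hm : 3 ≤ m) :
    (∃ z : ℕ → ℝ, ∀ e ∈ E, BHolds z e) ↔
      icode (NN (wiring (Kn E.length) (bil E)) + m)
        (fac (wiring (Kn E.length) (bil E)) (nwr (Kn E.length) (bil E)) m) ∈ SPR (2 + m) := by
  have hBV := hRW E hB
  have hWF := hWWF _ _ hBV
  have hV : Valid (2 + m) (NN (wiring (Kn E.length) (bil E)) + m)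
      (fac (wiring (Kn E.length) (bil E)) (nwr (Kn E.length) (bil E)) m) := by
    intro f hf
    obtain ⟨h1, h2, -, h3, -⟩ := hFMEM _ _ _ f hf
    exact ⟨h1, h2, h3⟩
  constructor
  · intro hz
    obtain ⟨v, hv⟩ := hWC _ _ hBV (hRC E hE hB hz)
    exact ⟨_, _, hV, rfl, hCOMP _ _ m v hWF hm hv⟩
  · rintro ⟨n, F, hVF, hc, hR⟩
    obtain ⟨h1, h2⟩ := hIJ (2 + m) _ _ _ _ (by omega) (fun f hf => (hV f hf).1)
      (fun f hf => (hVF f hf).1) hc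
    rw [← h1, ← h2] at hR
    obtain ⟨v, hv⟩ := hSND _ _ m hWF hm hR
    exact hRS E hE hB (hWS _ _ v hBV hv)

theorem st_MAIN (hRD : ST_RD) (hRW : ST_RW) (hRS : ST_RS) (hRC : ST_RC) (hWWF : ST_WWF)
    (hWS : ST_WS) (hWC : ST_WC) (hCOMP : ST_COMP) (hSND : ST_SND) (hFMEM : ST_FMEM)
    (hIJ : ST_IJ) (hEK : ST_EK) (hEF : ST_EF) (hEI : ST_EI) (hEW : ST_EW) (hEB : ST_EB) :
    ST_MAIN := by
  rintro d hd A ⟨f, ⟨hf⟩, hfA⟩
  obtain ⟨m, rfl⟩ : ∃ m, d = 2 + m := ⟨d - 2, by omega⟩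
  obtain ⟨D, hD, hDs⟩ := hRD
  have hG := main_pt hEK hEF hEI hEW hEB D hD m
  obtain ⟨hP⟩ := polytime_list (fun l : List Bool => l) (mainG D m)
    (fun u => (mainG D m u).reverse) (PT.reverse hG) (fun _ => rfl)
  refine ⟨mainG D m ∘ f, Pool.Agent.Helper55.Compose.comp_polytime hf hP, fun u => ?_⟩
  rw [hfA]
  obtain ⟨h1, h2, h3⟩ := hDs (f u)
  rw [h3]
  exact main_sem hRW hRS hRC hWWF hWS hWC hCOMP hSND hFMEM hIJ (D (f u)) h1 h2 m (by omega)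

end Pool.Agent.Helper54.SP
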