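import Pool.Agent.Helper54.SP.StmtsW
import Pool.Agent.Helper54.Rg.Real2

/-!
Modules RB and RG: bounded solutions and gaps for systems of basic equations.
-/

namespace Pool.Agent.Helper54.SP

open Finset Pool.Agent.Helper54.ETR

/-- the term of a basic equation -/
def rbT (V : ℕ → Term) (e : Be) : Term :=
  if e.1 = 0 then Term.sub (V e.2.1) Term.one
  else if e.1 = 1 then Term.sub (Term.add (V e.2.1) (V e.2.2.1)) (V e.2.2.2)
  else Term.sub (Term.mul (V e.2.1) (V e.2.2.1)) (V e.2.2.2)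

/-- the sum of squares -/
def rbP (V : ℕ → Term) : List Be → Term
  | [] => Term.zero
  | e :: E => Term.add (Term.mul (rbT V e) (rbT V e)) (rbP V E)

/-- the value of a basic equation -/
noncomputable def rbv (z : ℕ → ℝ) (e : Be) : ℝ :=
  if e.1 = 0 then z e.2.1 - 1 else if e.1 = 1 then z e.2.1 + z e.2.2.1 - z e.2.2.2
  else z e.2.1 * z e.2.2.1 - z e.2.2.2

theorem rbv_iff (z : ℕ → ℝ) (e : Be) : BHolds z e ↔ rbv z e = 0 := by
  unfold BHolds rbv
  split_ifs <;> rw [sub_eq_zero]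

theorem rbT_ev (V : ℕ → Term) (x z : ℕ → ℝ) (h : ∀ i, (V i).ev x = z i) (e : Be) :
    (rbT V e).ev x = rbv z e := by
  unfold rbT rbv
  split_ifs <;> simp [Term.ev, h]

theorem rbP_ev (V : ℕ → Term) (x z : ℕ → ℝ) (h : ∀ i, (V i).ev x = z i) (E : List Be) :
    (rbP V E).ev x = (E.map fun e => rbv z e ^ 2).sum := by
  induction E with
  | nil => simp [rbP, Term.ev]
  | cons e E ih =>
    rw [rbP, Term.ev, Term.ev, ih, rbT_ev V x z h, List.map_cons, List.sum_cons]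
    ring

theorem rb_sum_nonneg (z : ℕ → ℝ) (E : List Be) : 0 ≤ (E.map fun e => rbv z e ^ 2).sum :=
  List.sum_nonneg (by
    intro a ha
    obtain ⟨e, _, rfl⟩ := List.mem_map.1 ha
    positivity)

theorem rb_sum_zero (z : ℕ → ℝ) (E : List Be) (h : (E.map fun e => rbv z e ^ 2).sum = 0) :
    ∀ e ∈ E, BHolds z e := by
  induction E with
  | nil => simp
  | cons e E ih =>
    rw [List.map_cons, List.sum_cons] at h
    have h1 := rb_sum_nonneg z E
    have h2 : 0 ≤ rbv z e ^ 2 := by positivity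
    have h3 : rbv z e ^ 2 = 0 := by linarith
    have h4 : (E.map fun e => rbv z e ^ 2).sum = 0 := by linarith
    intro f hf
    rcases List.mem_cons.1 hf with rfl | hf
    · rw [rbv_iff]
      exact pow_eq_zero_iff (two_ne_zero) |>.1 h3
    · exact ih h4 f hf

theorem rb_sum_le (z : ℕ → ℝ) (E : List Be) (c : ℝ) (h : ∀ e ∈ E, rbv z e ^ 2 ≤ c) :
    (E.map fun e => rbv z e ^ 2).sum ≤ E.length * c := by
  induction E with
  | nil => simp
  | cons e E ih =>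
    rw [List.map_cons, List.sum_cons, List.length_cons]
    have h1 := h e List.mem_cons_self
    have h2 := ih fun f hf => h f (List.mem_cons_of_mem _ hf)
    push_cast
    linarith

theorem rbT_nd (V : ℕ → Term) (v : ℕ) (h : ∀ i, (V i).nd ≤ v) (hv : 1 ≤ v) (e : Be) :
    (rbT V e).nd ≤ 3 * v + 2 := by
  have h1 := h e.2.1
  have h2 := h e.2.2.1
  have h3 := h e.2.2.2
  unfold rbT
  split_ifs <;> simp only [Term.nd] <;> omega

theorem rbP_nd (V : ℕ → Term) (v : ℕ) (h : ∀ i, (V i).nd ≤ v) (hv : 1 ≤ v) (E : List Be) :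
    (rbP V E).nd ≤ (6 * v + 6) * E.length + 1 := by
  induction E with
  | nil => simp [rbP, Term.nd]
  | cons e E ih =>
    have h1 := rbT_nd V v h hv e
    rw [rbP, Term.nd, Term.nd, List.length_cons, Nat.mul_add]
    omega

theorem rbT_occ (V : ℕ → Term) (n : ℕ) (h : ∀ i k, (V i).Occ k → k = 0 ∨ k = 1 + i) (e : Be)
    (he : e.2.1 < n ∧ e.2.2.1 < n ∧ e.2.2.2 < n) (k : ℕ) (hk : (rbT V e).Occ k) :
    k = 0 ∨ ∃ j < n, k = 1 + j := by
  obtain ⟨h1, h2, h3⟩ := he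
  have key : ∀ i, i < n → (V i).Occ k → k = 0 ∨ ∃ j < n, k = 1 + j := by
    intro i hi hV
    rcases h i k hV with h0 | h0
    · exact Or.inl h0
    · exact Or.inr ⟨i, hi, h0⟩
  unfold rbT at hk
  split_ifs at hk <;> simp only [Term.Occ] at hk
  · rcases hk with hk | hk
    · exact key _ h1 hk
    · exact hk.elim
  · rcases hk with (hk | hk) | hk
    · exact key _ h1 hk
    · exact key _ h2 hk
    · exact key _ h3 hk
  · rcases hk with (hk | hk) | hk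
    · exact key _ h1 hk
    · exact key _ h2 hk
    · exact key _ h3 hk

theorem rbP_occ (V : ℕ → Term) (n : ℕ) (h : ∀ i k, (V i).Occ k → k = 0 ∨ k = 1 + i)
    (E : List Be) (hE : ∀ e ∈ E, e.2.1 < n ∧ e.2.2.1 < n ∧ e.2.2.2 < n) (k : ℕ)
    (hk : (rbP V E).Occ k) : k = 0 ∨ ∃ j < n, k = 1 + j := by
  induction E with
  | nil => simp only [rbP, Term.Occ] at hk
  | cons e E ih =>
    simp only [rbP, Term.Occ] at hk
    rcases hk with (hk | hk) | hk
    · exact rbT_occ V n h e (hE e List.mem_cons_self) k hk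
    · exact rbT_occ V n h e (hE e List.mem_cons_self) k hk
    · exact ih (fun f hf => hE f (List.mem_cons_of_mem _ hf)) hk

theorem rb_congr (z z' : ℕ → ℝ) (n : ℕ) (e : Be) (he : e.2.1 < n ∧ e.2.2.1 < n ∧ e.2.2.2 < n)
    (h : ∀ i, i < n → z i = z' i) : rbv z e = rbv z' e := by
  unfold rbv
  rw [h _ he.1, h _ he.2.1, h _ he.2.2]

theorem qn_eq (ν : ℕ) : qn ν = Qb (30 * ν + 10) ν := rfl

theorem rb_abs (B w : ℝ) (hB : 1 ≤ B) (h : w ^ 2 ≤ B) : |w| ≤ B := by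
  by_contra hc
  push Not at hc
  have h1 : |w| ^ 2 = w ^ 2 := sq_abs w
  nlinarith

theorem st_RB : ST_RB := by
  intro E hE hB hz
  obtain ⟨z, hz⟩ := hz
  set ν := E.length with hν
  have hV : ∀ i k, (Term.var (1 + i)).Occ k → k = 0 ∨ k = 1 + i := by
    intro i k hk
    right
    exact hk.symm
  have hP : ∀ x : ℕ → ℝ, (rbP (fun i => Term.var (1 + i)) E).ev x =
      (E.map fun e => rbv (fun i => x (1 + i)) e ^ 2).sum :=
    fun x => rbP_ev _ x _ (fun i => rfl) E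
  obtain ⟨x, hx1, hx2, hx3⟩ := ball 1 0 ν (by omega) (rbP (fun i => Term.var (1 + i)) E)
    (30 * ν + 10) ((rbP_nd _ 1 (fun i => le_rfl) le_rfl E).trans (by omega)) (by omega)
    (fun i hi => rbP_occ _ ν hV E hB i hi) (fun x => by rw [hP]; exact rb_sum_nonneg _ E)
    (fun i => if i = 0 then 1 else z (i - 1)) (by simp) (by
      rw [hP]
      apply List.sum_eq_zero
      intro a ha
      obtain ⟨e, he, rfl⟩ := List.mem_map.1 ha
      have h1 : (fun i => (fun i => if i = 0 then (1 : ℝ) else z (i - 1)) (1 + i)) = z := by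
        funext i
        simp only []
        rw [if_neg (by omega)]
        congr 1
        omega
      rw [h1, (rbv_iff z e).1 (hz e he)]
      norm_num)
  rw [hP] at hx2
  have hx4 := rb_sum_zero _ E hx2
  refine ⟨fun i => if i < ν then x (1 + i) else 0, fun i => ?_, fun e he => ?_⟩
  · have hpos : (1 : ℝ) ≤ 2 ^ 2 ^ qn ν := one_le_pow₀ (by norm_num)
    simp only []
    split_ifs with hi
    · apply rb_abs _ _ hpos
      rw [qn_eq]
      refine le_trans ?_ hx3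
      exact single_le_sum (f := fun j => x (1 + j) ^ 2) (fun j _ => sq_nonneg _)
        (mem_range.2 hi)
    · rw [abs_zero]
      linarith
  · rw [rbv_iff, rb_congr _ (fun i => x (1 + i)) ν e (hB e he) (fun i hi => if_pos hi),
      ← rbv_iff]
    exact hx4 e he

/-! ### the gap -/

theorem rg_pow (a b ν : ℕ) : (ν : ℝ) * 2 ^ 2 ^ a ≤ 2 ^ 2 ^ (a + ν + b) := by
  have h1 : 2 ^ a + ν ≤ 2 ^ (a + ν + b) := by
    have h2 : ν + 1 ≤ 2 ^ ν := Nat.lt_two_pow_self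
    have h3 : 1 ≤ 2 ^ a := Nat.one_le_two_pow
    have h4 : 1 ≤ 2 ^ b := Nat.one_le_two_pow
    calc 2 ^ a + ν ≤ 2 ^ a * (ν + 1) := by nlinarith
      _ ≤ 2 ^ a * 2 ^ ν := Nat.mul_le_mul_left _ h2
      _ = 2 ^ a * 2 ^ ν * 1 := by ring
      _ ≤ 2 ^ a * 2 ^ ν * 2 ^ b := Nat.mul_le_mul_left _ h4
      _ = 2 ^ (a + ν + b) := by rw [pow_add, pow_add]
  have h5 : (ν : ℝ) ≤ 2 ^ ν := by
    have : ν ≤ 2 ^ ν := Nat.lt_two_pow_self.le
    exact_mod_cast this
  calc (ν : ℝ) * 2 ^ 2 ^ a ≤ 2 ^ ν * 2 ^ 2 ^ a := by gcongr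
    _ = 2 ^ (2 ^ a + ν) := by rw [pow_add]; ring
    _ ≤ 2 ^ 2 ^ (a + ν + b) := pow_le_pow_right₀ (by norm_num) h1

theorem rg_sum (n ν : ℕ) (z : ℕ → ℝ) (hz : ∀ i, |z i| ≤ 2 ^ 2 ^ n) :
    ∑ j ∈ range ν, (z j / 2 ^ 2 ^ (n + ν)) ^ 2 ≤ 4 := by
  obtain ⟨R, hR⟩ : ∃ R : ℝ, R = 2 ^ 2 ^ (n + ν) := ⟨_, rfl⟩
  have hR0 : 0 < R := by rw [hR]; positivity
  have h1 : ∀ j ∈ range ν, (z j / R) ^ 2 ≤ (2 ^ 2 ^ (n + 1)) / R ^ 2 := by
    intro j _
    rw [div_pow]
    have h2 : z j ^ 2 ≤ 2 ^ 2 ^ (n + 1) := by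
      rw [← sq_abs]
      calc |z j| ^ 2 ≤ (2 ^ 2 ^ n) ^ 2 := pow_le_pow_left₀ (abs_nonneg _) (hz j) 2
        _ = 2 ^ 2 ^ (n + 1) := by rw [← pow_mul, pow_succ 2 n]
    exact div_le_div_of_nonneg_right h2 (by positivity)
  rw [← hR]
  refine (sum_le_sum h1).trans ?_
  rw [sum_const, card_range, nsmul_eq_mul, ← mul_div_assoc, div_le_iff₀ (by positivity)]
  have h2 := rg_pow (n + 1) 0 ν
  have h3 : R ^ 2 = 2 ^ 2 ^ (n + 1 + ν + 0) := by
    rw [hR, ← pow_mul, ← pow_succ]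
    congr 2
    omega
  rw [← h3] at h2
  nlinarith [sq_nonneg R]

/-- the scaled point -/
noncomputable def rgx (r : ℝ) (z : ℕ → ℝ) (i : ℕ) : ℝ := if i = 0 then r else z (i - 1) / r

theorem rgx_zero (r : ℝ) (z : ℕ → ℝ) : rgx r z 0 = r := rfl

theorem rgx_succ (r : ℝ) (z : ℕ → ℝ) (i : ℕ) : rgx r z (1 + i) = z i / r := by
  unfold rgx
  rw [if_neg (by omega), show 1 + i - 1 = i by omega]

theorem rg_fin (q a ν N : ℕ) (S T : ℝ) (hT : T = 2 ^ 2 ^ N) (hN : N + 1 = a + q + ν + 27)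
    (hS : S ≤ ν * (1 / T ^ 2)) (h1 : 1 ≤ S * 2 ^ 2 ^ (a + q)) : False := by
  have hT0 : 0 < T := by rw [hT]; positivity
  have hT2 : T ^ 2 = 2 ^ 2 ^ (a + q + ν + 27) := by
    rw [hT, ← pow_mul, ← pow_succ, hN]
  have hA := rg_pow (a + q) 26 ν
  have hlt : (2 : ℝ) ^ 2 ^ (a + q + ν + 26) < 2 ^ 2 ^ (a + q + ν + 27) :=
    pow_lt_pow_right₀ (by norm_num) (Nat.pow_lt_pow_right (by norm_num) (by omega))
  obtain ⟨W, hW⟩ : ∃ W : ℝ, W = 2 ^ 2 ^ (a + q) := ⟨_, rfl⟩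
  have hW0 : 0 < W := by rw [hW]; positivity
  rw [← hW] at h1 hA
  have h2 : S * W ≤ (ν * (1 / T ^ 2)) * W := mul_le_mul_of_nonneg_right hS hW0.le
  have h3 : (ν * (1 / T ^ 2)) * W = (ν * W) / T ^ 2 := by ring
  have h4 : (ν * W) / T ^ 2 < 1 := by
    rw [div_lt_one (by positivity), hT2]
    exact lt_of_le_of_lt hA hlt
  linarith

theorem rg_core (E : List Be) (hB : BBelow E) (n a q N : ℕ) (ha : a = n + E.length)
    (hq : q = qn E.length) (hN : N + 1 = a + q + E.length + 27) (z : ℕ → ℝ)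
    (hz1 : ∀ i, |z i| ≤ 2 ^ 2 ^ n) (T : ℝ) (hT : T = 2 ^ 2 ^ N)
    (hz2 : ∀ e ∈ E, |rbv z e| * T ≤ 1) : ∃ z : ℕ → ℝ, ∀ e ∈ E, BHolds z e := by
  by_contra hno
  obtain ⟨r, hr⟩ : ∃ r : ℕ, r = 2 ^ 2 ^ a := ⟨_, rfl⟩
  have hr2 : 2 ≤ r := by
    rw [hr]
    calc 2 = 2 ^ 1 := by norm_num
      _ ≤ 2 ^ 2 ^ a := Nat.pow_le_pow_right (by norm_num) Nat.one_le_two_pow
  have hrR : (r : ℝ) = 2 ^ 2 ^ a := by rw [hr]; push_cast; rfl
  have hr0 : (0 : ℝ) < r := by rw [hrR]; positivity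
  have hV : ∀ i k, (Term.mul (Term.var 0) (Term.var (1 + i))).Occ k → k = 0 ∨ k = 1 + i := by
    intro i k hk
    rcases hk with hk | hk
    · exact Or.inl hk.symm
    · exact Or.inr hk.symm
  have hP : ∀ x : ℕ → ℝ, (rbP (fun i => Term.mul (Term.var 0) (Term.var (1 + i))) E).ev x =
      (E.map fun e => rbv (fun i => x 0 * x (1 + i)) e ^ 2).sum :=
    fun x => rbP_ev _ x _ (fun i => rfl) E
  have hgap := gap 1 0 E.length r (by omega)
    (rbP (fun i => Term.mul (Term.var 0) (Term.var (1 + i))) E) (30 * E.length + 10) a hr2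
    hr.le ((rbP_nd _ 3 (fun i => le_rfl) (by norm_num) E).trans (by omega)) (by omega)
    (fun i hi => rbP_occ _ E.length hV E hB i hi) (fun x hx => by
      rw [hP]
      rcases (rb_sum_nonneg (fun i => x 0 * x (1 + i)) E).lt_or_eq with h | h
      · exact h
      · exact absurd ⟨_, rb_sum_zero _ E h.symm⟩ hno)
    (rgx r z) (rgx_zero _ _) (by
      have h1 : ∀ j ∈ range E.length, rgx r z (1 + j) ^ 2 =
          (z j / 2 ^ 2 ^ (n + E.length)) ^ 2 := by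
        intro j _
        rw [rgx_succ, hrR, ha]
      rw [sum_congr rfl h1]
      exact rg_sum n E.length z hz1)
  rw [hP] at hgap
  have hfun : (fun i => rgx r z 0 * rgx r z (1 + i)) = z := by
    funext i
    rw [rgx_zero, rgx_succ]
    field_simp
  rw [hfun, ← qn_eq, ← hq] at hgap
  have hT0 : 0 < T := by rw [hT]; positivity
  have hsq : ∀ e ∈ E, rbv z e ^ 2 ≤ 1 / T ^ 2 := by
    intro e he
    rw [le_div_iff₀ (by positivity), ← sq_abs, ← mul_pow]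
    exact pow_le_one₀ (by positivity) (hz2 e he)
  exact rg_fin q a E.length N _ T hT hN (rb_sum_le z E _ hsq) hgap

theorem st_RG : ST_RG := by
  intro E hE hB hz
  obtain ⟨z, hz1, hz2⟩ := hz
  obtain ⟨q, hq⟩ : ∃ q, q = qn E.length := ⟨_, rfl⟩
  obtain ⟨n, hn⟩ : ∃ n, n = an E.length := ⟨_, rfl⟩
  obtain ⟨b, hb⟩ : ∃ b, b = bn E.length := ⟨_, rfl⟩
  rw [← hn] at hz1
  rw [← hb] at hz2
  have han : n = q + 6 := by rw [hn, hq]; rfl
  have hbn : b = 2 * q + 2 * E.length + 40 := by rw [hb, hq]; rfl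
  refine rg_core E hB n (n + E.length) q (b - 8) rfl hq (by omega) z hz1 (2 ^ 2 ^ (b - 8)) rfl ?_
  intro e he
  obtain ⟨h1, h2, h3⟩ := hz2 e he
  unfold rbv
  split_ifs with h5 h6
  · exact h1 h5
  · exact h2 h6
  · exact h3 h5 h6

end Pool.Agent.Helper54.SP
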