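import Pool.Agent.Helper54.SP.StmtsW
import Pool.Agent.Helper54.Rg.Main

/-!
Module RD: the existential theory of the reals reduces to systems of basic equations.
-/

namespace Pool.Agent.Helper54.SP

open Finset Pool.Agent.Helper54.Poly Pool.Agent.Helper54.ETR

/-- state of the decoder: current number, numbers, kind, equations -/
abbrev RdS := (ℕ × List ℕ) × (ℕ × List Be)

/-- emitting an equation -/
def rdEmit (s : RdS) : RdS :=
  ((0, []), (0, (s.2.1, (s.1.2.getD 0 0, (s.1.2.getD 1 0, s.1.2.getD 2 0))) :: s.2.2))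

/-- one step of the decoder (reading from the right) -/
def rdStep (t : Tok) (s : RdS) : RdS :=
  match t with
  | Tok.e => ((0, s.1.2), s.2)
  | Tok.s => ((s.1.1 + 1, s.1.2), s.2)
  | Tok.x => ((0, s.1.1 :: s.1.2), s.2)
  | Tok.add => (s.1, (1, s.2.2))
  | Tok.mul => (s.1, (2, s.2.2))
  | Tok.sub => rdEmit s
  | _ => s

/-- start of the decoder -/
def rdInit : RdS := ((0, []), (0, []))

/-- the decoder -/
def rdDec (l : List Tok) : List Be := (l.foldr rdStep rdInit).2.2

/-- the basic equation of a term -/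
def rdBe : Term → Be
  | Term.sub (Term.var i) Term.one => (0, i, 0, 0)
  | Term.sub (Term.add (Term.var i) (Term.var j)) (Term.var k) => (1, i, j, k)
  | Term.sub (Term.mul (Term.var i) (Term.var j)) (Term.var k) => (2, i, j, k)
  | _ => (0, 0, 0, 0)

theorem rd_var (i : ℕ) (s : RdS) : ((Term.var i).toks).foldr rdStep s =
    ((0, i :: s.1.2), s.2) := by
  have h : ∀ i, (List.replicate i Tok.s ++ [Tok.e]).foldr rdStep s = ((i, s.1.2), s.2) := by
    intro i
    induction i with
    | zero => rfl
    | succ i ih =>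
      rw [List.replicate_succ, List.cons_append, List.foldr_cons, ih]
      rfl
  rw [Term.toks, List.foldr_cons, h]
  rfl

theorem rd_basic (t : Term) (ht : Basic t) (E : List Be) :
    t.toks.foldr rdStep ((0, []), (0, E)) = ((0, []), (0, rdBe t :: E)) := by
  rcases ht with ⟨i, rfl⟩ | ⟨i, j, k, rfl⟩ | ⟨i, j, k, rfl⟩
  · simp only [gOne, rdBe]
    rw [Term.toks, List.foldr_cons, List.foldr_append]
    change rdStep Tok.sub (List.foldr rdStep ((0, []), (0, E)) (Term.var i).toks) = _
    rw [rd_var]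
    rfl
  · simp only [gAdd, rdBe]
    rw [Term.toks, List.foldr_cons, List.foldr_append, rd_var, Term.toks, List.foldr_cons,
      List.foldr_append, rd_var, rd_var]
    rfl
  · simp only [gMul, rdBe]
    rw [Term.toks, List.foldr_cons, List.foldr_append, rd_var, Term.toks, List.foldr_cons,
      List.foldr_append, rd_var, rd_var]
    rfl

theorem rd_conj (S : List Term) : ∀ t : Term, (∀ s ∈ t :: S, Basic s) →
    (conj t S).toks.foldr rdStep rdInit = ((0, []), (0, (t :: S).map rdBe)) := by
  have h1 : ∀ (t : Term) (E : List Be), Basic t →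
      (Form.eq t Term.zero).toks.foldr rdStep ((0, []), (0, E)) =
        ((0, []), (0, rdBe t :: E)) := by
    intro t E ht
    rw [Form.toks, List.foldr_cons, List.foldr_append]
    change rdStep Tok.eq (List.foldr rdStep ((0, []), (0, E)) t.toks) = _
    rw [rd_basic t ht]
    rfl
  induction S with
  | nil =>
    intro t ht
    rw [conj]
    exact h1 t [] (ht t (by simp))
  | cons s S ih =>
    intro t ht
    rw [conj, Form.toks, List.foldr_cons, List.foldr_append,
      ih s (fun a ha => ht a (List.mem_cons_of_mem _ ha)), h1 t _ (ht t (by simp))]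
    rfl

theorem rd_dec (t : Term) (S : List Term) (h : ∀ s ∈ t :: S, Basic s) :
    rdDec (conj t S).toks = (t :: S).map rdBe := by
  unfold rdDec
  rw [rd_conj S t h]

theorem rd_holds (t : Term) (ht : Basic t) (x : ℕ → ℝ) : BHolds x (rdBe t) ↔ t.eval x = 0 := by
  rcases ht with ⟨i, rfl⟩ | ⟨i, j, k, rfl⟩ | ⟨i, j, k, rfl⟩
  · simp [gOne, rdBe, BHolds, Term.eval, sub_eq_zero]
  · simp [gAdd, rdBe, BHolds, Term.eval, sub_eq_zero]
  · simp [gMul, rdBe, BHolds, Term.eval, sub_eq_zero]

theorem rd_below (t : Term) (ht : Basic t) (n : ℕ) (hn : 0 < n) (hb : t.Below n) :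
    (rdBe t).2.1 < n ∧ (rdBe t).2.2.1 < n ∧ (rdBe t).2.2.2 < n := by
  rcases ht with ⟨i, rfl⟩ | ⟨i, j, k, rfl⟩ | ⟨i, j, k, rfl⟩
  · simp only [gOne, Term.Below] at hb
    exact ⟨hb.1, hn, hn⟩
  · simp only [gAdd, Term.Below] at hb
    exact ⟨hb.1.1, hb.1.2, hb.2⟩
  · simp only [gMul, Term.Below] at hb
    exact ⟨hb.1.1, hb.1.2, hb.2⟩

/-! ### polynomial time -/

theorem rd_szget (l : List ℕ) : sz (l.getD 0 0) + sz (l.getD 1 0) + sz (l.getD 2 0) ≤
    sz l + 2 := by
  have h0 : sz (0 : ℕ) = 1 := by rw [sz_nat]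
  rcases l with _ | ⟨a, _ | ⟨b, _ | ⟨c, l⟩⟩⟩
  · simp only [List.getD_nil, h0, sz_nil]; omega
  · simp only [List.getD_cons_zero, List.getD_cons_succ, List.getD_nil, h0, sz_nil, sz_cons]
    omega
  · simp only [List.getD_cons_zero, List.getD_cons_succ, List.getD_nil, h0, sz_nil, sz_cons]
    omega
  · simp only [List.getD_cons_zero, List.getD_cons_succ, sz_cons]
    omega

theorem rd_szstep (t : Tok) (s : RdS) : sz (rdStep t s) ≤ sz s + 10 := by
  obtain ⟨⟨c, l⟩, ⟨k, E⟩⟩ := s
  cases t
  case e => simp only [rdStep, sz_pair, sz_nat]; omega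
  case s => simp only [rdStep, sz_pair, sz_nat]; omega
  case x => simp only [rdStep, sz_pair, sz_nat, sz_cons]; omega
  case add => simp only [rdStep, sz_pair, sz_nat]; omega
  case mul => simp only [rdStep, sz_pair, sz_nat]; omega
  case sub =>
    have h := rd_szget l
    simp only [rdStep, rdEmit, sz_pair, sz_cons, sz_nil]
    rw [sz_nat 0]
    have := sz_pos c
    omega
  all_goals (simp only [rdStep]; omega)

theorem rd_sz (m : List Tok) : sz (m.foldr rdStep rdInit) ≤ 10 * m.length + 10 := by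
  induction m with
  | nil =>
    simp only [List.foldr_nil, rdInit, sz_pair, sz_nil]
    rw [sz_nat 0]
    simp
  | cons t m ih =>
    rw [List.foldr_cons, List.length_cons]
    have := rd_szstep t (m.foldr rdStep rdInit)
    omega

theorem rd_ptstep : PT (fun z : Tok × RdS => rdStep z.1 z.2) := by
  have hs : PT (fun z : Tok × RdS => z.2) := PT.id.snd
  have hemit : PT (fun z : Tok × RdS => rdEmit z.2) :=
    ((PT.const 0).pair (PT.const [])).pair ((PT.const 0).pair (PT.lcons
      (hs.snd.fst.pair ((PT.getD (PT.const 0) hs.fst.snd (PT.const 0)).pair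
        ((PT.getD (PT.const 1) hs.fst.snd (PT.const 0)).pair
          (PT.getD (PT.const 2) hs.fst.snd (PT.const 0))))) hs.snd.snd))
  have h := PTtok (t := fun z : Tok × RdS => z.1) PT.id.fst (fun t z => rdStep t z.2) ?_
  · exact h
  · intro t
    cases t
    case e => exact ((PT.const 0).pair hs.fst.snd).pair hs.snd
    case s => exact ((PT.succ hs.fst.fst).pair hs.fst.snd).pair hs.snd
    case x => exact ((PT.const 0).pair (PT.lcons hs.fst.fst hs.fst.snd)).pair hs.snd
    case add => exact hs.fst.pair ((PT.const 1).pair hs.snd.snd)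
    case mul => exact hs.fst.pair ((PT.const 2).pair hs.snd.snd)
    case sub => exact hemit
    all_goals exact hs

theorem rd_pt : PT rdDec := by
  have h := PTfoldr (l := fun l : List Tok => l) (x := rdInit) rd_ptstep PT.id
    (10 * Polynomial.X + 10) (by
      intro m
      have := rd_sz m
      simp only [Polynomial.eval_add, Polynomial.eval_mul, Polynomial.eval_ofNat,
        Polynomial.eval_X]
      exact this)
  exact h.snd.snd

theorem st_RD : ST_RD := by
  refine ⟨fun u => rdDec (tk (red2 u)).2, rd_pt.comp (PTtk (PTred2 PT.id)).snd, fun u => ?_⟩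
  obtain ⟨t, S, hr, hb, hu, hiff⟩ := red2_spec u
  have hD : rdDec (tk (red2 u)).2 = (t :: S).map rdBe := by
    rw [hu, Form.code, tk_complete]
    exact rd_dec t S hb
  simp only [hD]
  refine ⟨by simp, ?_, ?_⟩
  · intro e he
    obtain ⟨s, hs, rfl⟩ := List.mem_map.1 he
    rw [List.length_map]
    exact rd_below s (hb s hs) _ (by simp) (hr.below s hs)
  · change (∃ φ : Form, u = φ.code ∧ ∃ x : ℕ → ℝ, φ.Holds x) ↔ _
    rw [hiff]
    constructor
    · rintro ⟨x, hx⟩
      refine ⟨x, fun e he => ?_⟩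
      obtain ⟨s, hs, rfl⟩ := List.mem_map.1 he
      exact (rd_holds s (hb s hs) x).2 (hx s hs)
    · rintro ⟨x, hx⟩
      exact ⟨x, fun s hs => (rd_holds s (hb s hs) x).1 (hx _ (List.mem_map.2 ⟨s, hs, rfl⟩))⟩

end Pool.Agent.Helper54.SP
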