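import Pool.Agent.Helper54.SP.Stmts

/-!
Statements of the `SPR_d` project: auxiliary modules for polytopes, liftings, normalization.
-/

namespace Pool.Agent.Helper54.SP

open Finset

/-- homogeneous coordinates of points of `ℝ^d` -/
noncomputable def hom (d : ℕ) (p : ℕ → Fin d → ℝ) (i j : ℕ) : ℝ :=
  if h : j < d then p i ⟨j, h⟩ else 1

/-- any `d + 1` of the first `n` points are affinely independent -/
def Unif (d n : ℕ) (p : ℕ → Fin d → ℝ) : Prop :=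
  ∀ l : List ℕ, l.length = d + 1 → l.Nodup → (∀ i ∈ l, i < n) → dt (d + 1) (hom d p) l ≠ 0

/-- convex hull of the first `n` points -/
def hul (d n : ℕ) (p : ℕ → Fin d → ℝ) : Set (Fin d → ℝ) := convexHull ℝ (p '' {i | i < n})

/-- passing to affine coordinates -/
def ST_PH : Prop := ∀ (d : ℕ) (X : ℕ → ℕ → ℝ) (l : List ℕ), l.length = d + 1 →
  (∀ i ∈ l, 0 < ∑ j ∈ range (d + 1), X i j) →
  ∃ c : ℝ, 0 < c ∧ dt (d + 1) X l =
    c * dt (d + 1) (hom d fun i j => X i j / ∑ j ∈ range (d + 1), X i j) l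

/-- the determinant is an affine function of its last point -/
def ST_PF : Prop := ∀ (d : ℕ) (p : ℕ → Fin d → ℝ) (f : List ℕ), f.length = d →
  ∃ (L : (Fin d → ℝ) →ₗ[ℝ] ℝ) (c : ℝ), ∀ i, dt (d + 1) (hom d p) (f ++ [i]) = L (p i) - c

/-- nonvanishing determinants mean affine independence -/
def ST_PI : Prop := ∀ (d n : ℕ) (p : ℕ → Fin d → ℝ), d < n → Unif d n p →
  ∀ B : Finset ℕ, B.card ≤ d + 1 → (∀ i ∈ B, i < n) → AffineIndependent ℝ (fun i : B => p i)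

/-- conversely -/
def ST_PJ : Prop := ∀ (d : ℕ) (p : ℕ → Fin d → ℝ) (l : List ℕ), l.length = d + 1 → l.Nodup →
  AffineIndependent ℝ (fun i : l.toFinset => p i) → dt (d + 1) (hom d p) l ≠ 0

/-- points and affine span -/
def ST_PA : Prop := ∀ (d n : ℕ) (p : ℕ → Fin d → ℝ), 1 ≤ d → d < n → Unif d n p →
  (∀ i j, i < n → j < n → p i = p j → i = j) ∧ affineSpan ℝ (p '' {i | i < n}) = ⊤

/-- the part of the convex hull on a supporting hyperplane -/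
def ST_PC : Prop := ∀ (d n : ℕ) (p : ℕ → Fin d → ℝ) (L : (Fin d → ℝ) →ₗ[ℝ] ℝ) (c : ℝ),
  (∀ i, i < n → L (p i) ≤ c) →
  {x ∈ hul d n p | L x = c} = convexHull ℝ (p '' {i | i < n ∧ L (p i) = c})

/-- one-sided lists span facets -/
def ST_P1 : Prop := ∀ (d n : ℕ) (p : ℕ → Fin d → ℝ) (f : List ℕ), 1 ≤ d → d < n → Unif d n p →
  f.Nodup → f.length = d → (∀ i ∈ f, i < n) → OS (d + 1) (hom d p) n f →
  IsFacet d (hul d n p) (convexHull ℝ (p '' {i | i ∈ f}))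

/-- every facet is spanned by a one-sided list -/
def ST_P2 : Prop := ∀ (d n : ℕ) (p : ℕ → Fin d → ℝ) (Q : Set (Fin d → ℝ)), 1 ≤ d → d < n →
  Unif d n p → IsFacet d (hul d n p) Q →
  ∃ f : List ℕ, f.Pairwise (· < ·) ∧ f.length = d ∧ (∀ i ∈ f, i < n) ∧
    OS (d + 1) (hom d p) n f ∧ Q = convexHull ℝ (p '' {i | i ∈ f})

/-- points of one-sided lists are vertices -/
def ST_P3 : Prop := ∀ (d n : ℕ) (p : ℕ → Fin d → ℝ) (f : List ℕ) (i : ℕ), 1 ≤ d → d < n →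
  Unif d n p → f.Nodup → f.length = d → (∀ i ∈ f, i < n) → OS (d + 1) (hom d p) n f → i ∈ f →
  p i ∈ (hul d n p).extremePoints ℝ

/-- expansion of a lifted determinant along the last column -/
def ST_LE1 : Prop := ∀ (k n : ℕ) (X : ℕ → ℕ → ℝ) (h : ℕ → ℝ) (l : List ℕ), l.length = k + 1 →
  (∀ i ∈ l, i < n) →
  dt (k + 1) (fun i j => if i < n then (if j < k then X i j else h i)
      else (if j = k then 1 else 0)) l =
    ∑ i ∈ range (k + 1), (-1) ^ (i + k) * h (l.getD i 0) * dt k X (l.eraseIdx i)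

/-- the same with the apex -/
def ST_LE2 : Prop := ∀ (k n : ℕ) (X : ℕ → ℕ → ℝ) (h : ℕ → ℝ) (l : List ℕ) (i : ℕ),
  l.length = k + 1 → l.Nodup → (∀ i ∈ l, i < n + 1) → i < k + 1 → l.getD i 0 = n →
  dt (k + 1) (fun i j => if i < n then (if j < k then X i j else h i)
      else (if j = k then 1 else 0)) l = (-1) ^ (i + k) * dt k X (l.eraseIdx i)

/-- the largest key -/
def ST_AMX : Prop := ∀ (ρ : ℕ → ℕ) (l : List ℕ), l ≠ [] → l.Nodup →
  (∀ i ∈ l, ∀ j ∈ l, ρ i = ρ j → i = j) →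
  amax ρ l < l.length ∧ (∀ j ∈ l, ρ j ≤ ρ (l.getD (amax ρ l) 0)) ∧
  ∀ i, i < l.length → (∀ j ∈ l, ρ j ≤ ρ (l.getD i 0)) → amax ρ l = i

/-- coordinates of the bracket -/
def ST_COO : Prop := ∀ (N m : ℕ) (X : ℕ → ℕ → ℝ) (p q r : ℕ), br N m X 0 1 2 ≠ 0 →
  br N m X p q r * (br N m X 0 1 2) ^ 2 =
    br N m X p 1 2 * (br N m X 0 q 2 * br N m X 0 1 r - br N m X 0 1 q * br N m X 0 r 2) -
    br N m X 0 p 2 * (br N m X q 1 2 * br N m X 0 1 r - br N m X 0 1 q * br N m X r 1 2) +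
    br N m X 0 1 p * (br N m X q 1 2 * br N m X 0 r 2 - br N m X 0 q 2 * br N m X r 1 2)

/-- sign bookkeeping at a fan: all apices above the layer `c` are removed -/
def ST_FB1 : Prop := ∀ (m N : ℕ) (σ : List ℕ → Bool) (ρ : ℕ → ℕ → ℕ) (c : ℕ) (s : List ℕ)
  (x : ℕ), KeyOK N m ρ → c < m → s.length = 3 → (∀ i ∈ s, i < N) → x < N + c + 1 →
  (s ++ aex N m c ++ [x]).Nodup →
  chi σ ρ m (s ++ aex N m c ++ [x]) =
    xor (decide ((m - 1 - c) % 2 = 1)) (chi σ ρ (c + 1) (s ++ apx N c ++ [x]))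

/-- all apices at the end are removed without a sign -/
def ST_FB2 : Prop := ∀ (m N : ℕ) (σ : List ℕ → Bool) (ρ : ℕ → ℕ → ℕ) (c : ℕ) (s : List ℕ),
  KeyOK N m ρ → c ≤ m → s.length = 3 → (∀ i ∈ s, i < N) → s.Nodup →
  chi σ ρ c (s ++ apx N c) = σ s

/-- all apices before the last element are removed with signs -/
def ST_FB3 : Prop := ∀ (m N : ℕ) (σ : List ℕ → Bool) (ρ : ℕ → ℕ → ℕ) (c : ℕ) (s : List ℕ)
  (x : ℕ), KeyOK N m ρ → c ≤ m → s.length = 2 → (∀ i ∈ s, i < N) → x < N → (s ++ [x]).Nodup →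
  chi σ ρ c (s ++ apx N c ++ [x]) = xor (decide (c % 2 = 1)) (σ (s ++ [x]))

/-- the facets are valid and every vertex lies in one of them -/
def ST_COV : Prop := ∀ (Γ : List Gt) (nw m : ℕ), WF Γ nw → 3 ≤ m →
  Fans Γ m (fun g => ∃ f ∈ fac Γ nw m, f.Perm g) →
  ∀ i, i < NN Γ + m → ∃ f ∈ fac Γ nw m, i ∈ f

/-- triples with three different letters -/
def ST_GT1 : Prop := ∀ (k : Bool) (U U' A A' e : ℝ) (b : Bool), GH k U U' A A' e →
  (b = true ↔ U < A) → ∀ p q r, p < q → q < r → r < 8 → p / 2 ≠ q / 2 → q / 2 ≠ r / 2 →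
  0 < sb (tb (p / 2) (q / 2) (r / 2) b) *
    ((cox U U' e q - cox U U' e p) * (coy k U U' A A' e r - coy k U U' A A' e p) -
      (cox U U' e r - cox U U' e p) * (coy k U U' A A' e q - coy k U U' A A' e p))

/-- triples with both copies of a letter -/
def ST_GT2 : Prop := ∀ (k : Bool) (U U' A A' e : ℝ) (b : Bool), GH k U U' A A' e →
  (b = true ↔ U < A) → ∀ p q r, p < q → q < r → r < 8 → (p / 2 = q / 2 ∨ q / 2 = r / 2) →
  0 < sb (tb (p / 2) (q / 2) (r / 2) b) *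
    ((cox U U' e q - cox U U' e p) * (coy k U U' A A' e r - coy k U U' A A' e p) -
      (cox U U' e r - cox U U' e p) * (coy k U U' A A' e q - coy k U U' A A' e p))

/-- completeness of the wiring, values: the numerical part for one inequality -/
def ST_WN : Prop := ∀ a₀ a₁ a₂ a₃ a₄ : ℝ, 0 < a₀ → 0 < a₁ → 0 < a₂ → 0 < a₃ → 0 < a₄ →
  a₀ + a₁ + a₂ < a₃ + a₄ → ∃ δ : ℝ, 0 < δ ∧ ∀ t s₀ s₁ s₂ s₃ s₄ : ℝ, 0 < t → t < δ →
    (∀ s ∈ [s₀, s₁, s₂, s₃, s₄], 2 < s ∧ s < 2 + δ) →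
    (1 + t * a₀ / s₀) * (1 + t * a₁ / s₁) * (1 + t * a₂ / s₂) <
      (1 + t * a₃ / s₃) * (1 + t * a₄ / s₄)

end Pool.Agent.Helper54.SP
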