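import Pool.Agent.Helper54.SP.Stmts
import Pool.Agent.Helper54.Rg.Lib2
import Pool.Agent.Helper54.Rg.Gate

/-!
Statements of the `SPR_d` project: bilinear inequalities (blocks W, R) and polynomial time
(block E).
-/

namespace Pool.Agent.Helper54.SP

open Finset Pool.Agent.Helper54.Poly

/-! ### Block W: systems of bilinear inequalities and their gates -/

/-- component of a pair of a list -/
def ks (q : List (ℕ × ℕ)) (i : ℕ) : ℕ := (q.getD i (0, 0)).1
def js (q : List (ℕ × ℕ)) (i : ℕ) : ℕ := (q.getD i (0, 0)).2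

/-- the product belonging to a pair -/
def pp (x y : ℕ → ℝ) (q : List (ℕ × ℕ)) (i : ℕ) : ℝ := x (ks q i) * y (js q i)

/-- solvability in positive reals of the inequalities
`x_{k0} y_{j0} + x_{k1} y_{j1} + x_{k2} y_{j2} < x_{k3} y_{j3} + x_{k4} y_{j4}` -/
def BSat (Q : List (List (ℕ × ℕ))) : Prop := ∃ x y : ℕ → ℝ, (∀ i, 0 < x i) ∧ (∀ i, 0 < y i) ∧
  ∀ q ∈ Q, pp x y q 0 + pp x y q 1 + pp x y q 2 < pp x y q 3 + pp x y q 4

/-- every inequality has five pairs, with indices below `K` -/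
def BV (K : ℕ) (Q : List (List (ℕ × ℕ))) : Prop :=
  ∀ q ∈ Q, q.length = 5 ∧ ∀ z ∈ q, z.1 < K ∧ z.2 < K

/-- first wire of the term `i` of inequality `l` -/
def tbs (K L l i : ℕ) : ℕ :=
  if i < 3 then 4 * K + 5 * (3 * l + i) else 4 * K + 15 * L + 5 * (2 * l + (i - 3))
/-- first wire of the sums of inequality `l` -/
def pbs (K L l : ℕ) : ℕ := 4 * K + 25 * L + 8 * l

def gH (K L : ℕ) (q : List (ℕ × ℕ)) (l i : ℕ) : Gt :=
  (true, 5 * l + i, 2 * ks q i, 2 * ks q i + 1, tbs K L l i, tbs K L l i + 2)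
def gG3 (K L l i : ℕ) : Gt :=
  (true, 15 * L + (5 * l + i), tbs K L l i, tbs K L l i + 1, tbs K L l i + 2, tbs K L l i + 4)
def gG1 (K L : ℕ) (q : List (ℕ × ℕ)) (l i : ℕ) : Gt :=
  (false, 5 * L + (5 * l + i), 2 * K + 2 * js q i, 2 * K + 2 * js q i + 1, tbs K L l i,
    tbs K L l i + 1)
def gG2 (K L : ℕ) (q : List (ℕ × ℕ)) (l i : ℕ) : Gt :=
  (false, 10 * L + (5 * l + i), 2 * K + 2 * js q i, 2 * K + 2 * js q i + 1, tbs K L l i + 2,
    tbs K L l i + 3)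
def gC (K L l i : ℕ) : Gt :=
  if i < 3 then (false, 20 * L + (6 * l + i), tbs K L l i + 3, tbs K L l i + 4, pbs K L l + i,
    pbs K L l + i + 1)
  else if i < 5 then (false, 20 * L + (6 * l + i), tbs K L l i + 3, tbs K L l i + 4,
    pbs K L l + (i + 2), pbs K L l + (i + 3))
  else (false, 20 * L + (6 * l + i), pbs K L l + 5, pbs K L l + 7, pbs K L l, pbs K L l + 4)

/-- the gates of a system of inequalities -/
def wiring (K : ℕ) (Q : List (List (ℕ × ℕ))) : List Gt :=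
  ((List.range Q.length).flatMap fun l => (List.range 5).map fun i =>
    gH K Q.length (Q.getD l []) l i) ++
  (((List.range Q.length).flatMap fun l => (List.range 5).map fun i => gG3 K Q.length l i) ++
  (((List.range Q.length).flatMap fun l => (List.range 5).map fun i =>
    gG1 K Q.length (Q.getD l []) l i) ++
  (((List.range Q.length).flatMap fun l => (List.range 5).map fun i =>
    gG2 K Q.length (Q.getD l []) l i) ++
  ((List.range Q.length).flatMap fun l => (List.range 6).map fun i => gC K Q.length l i))))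

/-- number of wires -/
def nwr (K : ℕ) (Q : List (List (ℕ × ℕ))) : ℕ := 4 * K + 33 * Q.length

/-- the gates of the list -/
def ST_WMEM : Prop := ∀ (K : ℕ) (Q : List (List (ℕ × ℕ))),
  (wiring K Q).length = 26 * Q.length ∧
  (∀ l i, l < Q.length → i < 5 →
    (wiring K Q).getD (5 * l + i) (false, 0, 0, 0, 0, 0) = gH K Q.length (Q.getD l []) l i ∧
    (wiring K Q).getD (5 * Q.length + (5 * l + i)) (false, 0, 0, 0, 0, 0) =
      gG3 K Q.length l i ∧
    (wiring K Q).getD (10 * Q.length + (5 * l + i)) (false, 0, 0, 0, 0, 0) =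
      gG1 K Q.length (Q.getD l []) l i ∧
    (wiring K Q).getD (15 * Q.length + (5 * l + i)) (false, 0, 0, 0, 0, 0) =
      gG2 K Q.length (Q.getD l []) l i) ∧
  (∀ l i, l < Q.length → i < 6 →
    (wiring K Q).getD (20 * Q.length + (6 * l + i)) (false, 0, 0, 0, 0, 0) =
      gC K Q.length l i) ∧
  (∀ g, g ∈ wiring K Q ↔ ∃ l, l < Q.length ∧ ((∃ i, i < 5 ∧
    (g = gH K Q.length (Q.getD l []) l i ∨ g = gG3 K Q.length l i ∨
      g = gG1 K Q.length (Q.getD l []) l i ∨ g = gG2 K Q.length (Q.getD l []) l i)) ∨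
    ∃ i, i < 6 ∧ g = gC K Q.length l i))

/-- the gates are well-formed -/
def ST_WWF : Prop := ∀ (K : ℕ) (Q : List (List (ℕ × ℕ))), BV K Q →
  WF (wiring K Q) (nwr K Q)

/-- one term: the exact product -/
def ST_WT : Prop := ∀ β β' ω ω' ω'' b w c d : ℝ, 1 < β → 1 < b → 0 < c → β < β' → ω < ω' →
  b < w → c < d →
  (ω - 1) * (b - 1) = (β - 1) * (w - 1) → β' * c = β * d → ω' * c = ω * d →
  (ω'' - 1) * (β - 1) = (ω - 1) * (β' - 1) →
  ω'' - ω' = (d / c - 1) * ((w - 1) / (b - 1) - 1) ∧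
  ω'' / ω' = 1 + (1 - c / d) * ((w - 1) / (b - 1) - 1) / ω

/-- products of factors against sums -/
def ST_WP : Prop := ∀ a₀ a₁ a₂ a₃ a₄ s₀ s₁ s₂ t₃ t₄ : ℝ, 0 < a₀ → a₀ < 1 → 0 < a₁ → a₁ < 1 →
  0 < a₂ → a₂ < 1 → 0 < a₃ → 0 < a₄ → 1 / (1 - a₀) ≤ s₀ → 1 / (1 - a₁) ≤ s₁ →
  1 / (1 - a₂) ≤ s₂ → 0 < t₃ → 0 < t₄ → t₃ ≤ 1 + a₃ → t₄ ≤ 1 + a₄ →
  s₀ * s₁ * s₂ < t₃ * t₄ → a₀ + a₁ + a₂ < a₃ + a₄

/-- exact values of the wires give a solution of the inequalities -/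
def ST_WS : Prop := ∀ (K : ℕ) (Q : List (List (ℕ × ℕ))) (v : ℕ → ℝ), BV K Q →
  Sol (wiring K Q) v → BSat Q

/-- a solution of the inequalities gives exact values of the wires -/
def ST_WC : Prop := ∀ (K : ℕ) (Q : List (List (ℕ × ℕ))), BV K Q → BSat Q →
  ∃ v, Nice (wiring K Q) (nwr K Q) v

/-! ### Block R: from the theory of the reals to bilinear inequalities -/

/-- a basic equation `(kind, i, j, k)` -/
abbrev Be := ℕ × ℕ × ℕ × ℕ

def BHolds (z : ℕ → ℝ) (e : Be) : Prop :=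
  if e.1 = 0 then z e.2.1 = 1 else if e.1 = 1 then z e.2.1 + z e.2.2.1 = z e.2.2.2
  else z e.2.1 * z e.2.2.1 = z e.2.2.2

/-- all indices are below the number of equations -/
def BBelow (E : List Be) : Prop :=
  ∀ e ∈ E, e.2.1 < E.length ∧ e.2.2.1 < E.length ∧ e.2.2.2 < E.length

/-- the existential theory of the reals reduces to systems of basic equations -/
def ST_RD : Prop := ∃ D : List Bool → List Be, PT D ∧ ∀ u, D u ≠ [] ∧ BBelow (D u) ∧
  (u ∈ ETRL ↔ ∃ z : ℕ → ℝ, ∀ e ∈ D u, BHolds z e)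

/-- exponent in the ball and gap theorems -/
def qn (ν : ℕ) : ℕ :=
  (6 * ((30 * ν + 10) + 2) + 1) * (ν + 1) +
    (1 + (9 + 6 * (((30 * ν + 10) + 2) + ((30 * ν + 10) + 3))) *
      ((ν + 1) * (6 * ((30 * ν + 10) + 2) + 1)))

/-- length of the chain of large numbers -/
def an (ν : ℕ) : ℕ := qn ν + 6
/-- length of the chain of small numbers -/
def bn (ν : ℕ) : ℕ := 2 * qn ν + 2 * ν + 40

/-- number of variables of the bilinear system -/
def Kn (ν : ℕ) : ℕ := 8 + an ν + bn ν + 3 * ν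

/-- variable of `z_i` -/
def xv (ν i : ℕ) : ℕ := 7 + an ν + bn ν + i
/-- auxiliary variables of equation `t` -/
def av (ν t r : ℕ) : ℕ := 7 + an ν + bn ν + ν + 2 * t + r
/-- variables of the small numbers -/
def hv (ν i : ℕ) : ℕ := 6 + an ν + i

/-- the inequalities of equation `t` -/
def eqI (ν t : ℕ) (e : Be) : List (List (ℕ × ℕ)) :=
  if e.1 = 0 then
    [[(xv ν e.2.1, 4), (1, 0), (1, 0), (2, 0), (0, 0)],
     [(2, 0), (0, 0), (0, 0), (xv ν e.2.1, 3), (0, 0)]]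
  else if e.1 = 1 then
    [[(xv ν e.2.1, 0), (xv ν e.2.2.1, 0), (1, 0), (xv ν e.2.2.2, 3), (2, 3)],
     [(xv ν e.2.2.2, 4), (2, 4), (1, 0), (xv ν e.2.1, 0), (xv ν e.2.2.1, 0)]]
  else
    [[(xv ν e.2.1, xv ν e.2.2.1), (2, 2), (0, 0), (av ν t 0, 3), (0, 0)],
     [(av ν t 0, 4), (1, 0), (1, 0), (xv ν e.2.1, xv ν e.2.2.1), (2, 2)],
     [(xv ν e.2.1, 2), (xv ν e.2.2.1, 2), (0, 0), (av ν t 1, 3), (0, 0)],
     [(av ν t 1, 4), (1, 0), (1, 0), (xv ν e.2.1, 2), (xv ν e.2.2.1, 2)],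
     [(av ν t 0, 0), (2, 0), (1, 0), (xv ν e.2.2.2, 3), (av ν t 1, 3)],
     [(xv ν e.2.2.2, 4), (av ν t 1, 4), (1, 0), (av ν t 0, 0), (2, 0)]]

/-- bound and consistency of the variable `u` -/
def bdI (ν u : ℕ) : List (List (ℕ × ℕ)) :=
  [[(u, 0), (0, 0), (1, 0), (5 + an ν, 0), (0, 0)],
   [(u, 4), (0, 0), (1, 0), (0, u), (0, 0)],
   [(0, u), (0, 0), (1, 0), (u, 3), (0, 0)]]

/-- start of the chains -/
def stI (ν : ℕ) : List (List (ℕ × ℕ)) :=
  [[(5, 0), (1, 0), (1, 0), (0, 0), (0, 0)],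
   [(0, 5), (1, 0), (1, 0), (0, 0), (0, 0)],
   [(hv ν 0, 0), (hv ν 0, 0), (0, 0), (0, 0), (0, 0)],
   [(0, hv ν 0), (0, hv ν 0), (0, 0), (0, 0), (0, 0)],
   [(0, 3), (1, 0), (1, 0), (0, 0), (hv ν (bn ν), 0)],
   [(0, 0), (1, 0), (1, 0), (0, 4), (hv ν (bn ν), 0)]]

/-- squaring -/
def sqI (u w : ℕ) : List (List (ℕ × ℕ)) :=
  [[(w, 0), (0, 0), (1, 0), (u, u), (0, 0)],
   [(0, w), (0, 0), (1, 0), (u, u), (0, 0)]]

/-- the bilinear system of a system of basic equations -/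
def bil (E : List Be) : List (List (ℕ × ℕ)) :=
  stI E.length ++
  (((List.range (an E.length)).flatMap fun i => sqI (5 + i) (5 + i + 1)) ++
  (((List.range (bn E.length)).flatMap fun i => sqI (hv E.length i) (hv E.length (i + 1))) ++
  (bdI E.length 2 ++
  (((List.range (3 * E.length)).flatMap fun i => bdI E.length (xv E.length i)) ++
  ((List.range E.length).flatMap fun t => eqI E.length t (E.getD t (0, 0, 0, 0)))))))

/-- the bilinear system is well-formed -/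
def ST_RW : Prop := ∀ E : List Be, BBelow E → BV (Kn E.length) (bil E)

/-- a bounded system of basic equations which is approximately solvable is solvable -/
def ST_RG : Prop := ∀ E : List Be, E ≠ [] → BBelow E →
  (∃ z : ℕ → ℝ, (∀ i, |z i| ≤ 2 ^ 2 ^ (an E.length)) ∧ ∀ e ∈ E,
    (e.1 = 0 → |z e.2.1 - 1| * 2 ^ 2 ^ (bn E.length - 8) ≤ 1) ∧
    (e.1 = 1 → |z e.2.1 + z e.2.2.1 - z e.2.2.2| * 2 ^ 2 ^ (bn E.length - 8) ≤ 1) ∧
    (e.1 ≠ 0 → e.1 ≠ 1 → |z e.2.1 * z e.2.2.1 - z e.2.2.2| * 2 ^ 2 ^ (bn E.length - 8) ≤ 1)) →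
  ∃ z : ℕ → ℝ, ∀ e ∈ E, BHolds z e

/-- a solvable system of basic equations has a bounded solution -/
def ST_RB : Prop := ∀ E : List Be, E ≠ [] → BBelow E → (∃ z : ℕ → ℝ, ∀ e ∈ E, BHolds z e) →
  ∃ z : ℕ → ℝ, (∀ i, |z i| ≤ 2 ^ 2 ^ (qn E.length)) ∧ ∀ e ∈ E, BHolds z e

/-- soundness of the bilinear system -/
def ST_RS : Prop := ∀ E : List Be, E ≠ [] → BBelow E → BSat (bil E) →
  ∃ z : ℕ → ℝ, ∀ e ∈ E, BHolds z e

/-- completeness of the bilinear system -/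
def ST_RC : Prop := ∀ E : List Be, E ≠ [] → BBelow E → (∃ z : ℕ → ℝ, ∀ e ∈ E, BHolds z e) →
  BSat (bil E)

/-! ### Block E: polynomial time -/

/-- division and remainder by eight -/
def ST_E8 : Prop := ∀ {α : Type} [TEnc α] (f : α → ℕ), PT f →
  PT (fun a => f a / 8) ∧ PT (fun a => f a % 8) ∧ PT (fun a => f a / 2) ∧ PT (fun a => f a % 2)

/-- keys -/
def ST_EK : Prop := ∀ {α : Type} [TEnc α] (Γ : α → List Gt) (p : α → ℕ), PT Γ → PT p →
  PT (fun a => grp (p a)) ∧ PT (fun a => crn (p a)) ∧ PT (fun a => gat (Γ a) (p a)) ∧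
  PT (fun a => wir (Γ a) (p a)) ∧ PT (fun a => xk (p a)) ∧ PT (fun a => yk (Γ a) (p a)) ∧
  PT (fun a => sk (Γ a) (p a)) ∧ PT (fun a => NN (Γ a))

/-- the planar sign function -/
def ST_ES : Prop := ∀ {α : Type} [TEnc α] (Γ : α → List Gt) (l : α → List ℕ), PT Γ → PT l →
  PT (fun a => sgm (Γ a) (l a))

/-- keys of the layers -/
def ST_ER : Prop := ∀ (c : ℕ) {α : Type} [TEnc α] (Γ : α → List Gt) (nw p : α → ℕ), PT Γ →
  PT nw → PT p → PT (fun a => rho (Γ a) (nw a) c (p a))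

/-- the lifted sign function -/
def ST_EC : Prop := ∀ (m : ℕ) {α : Type} [TEnc α] (Γ : α → List Gt) (nw : α → ℕ)
  (l : α → List ℕ), PT Γ → PT nw → PT l → PT (fun a => chF (Γ a) (nw a) m (l a))

/-- the facet list -/
def ST_EF : Prop := ∀ (m : ℕ) {α : Type} [TEnc α] (Γ : α → List Gt) (nw : α → ℕ), PT Γ →
  PT nw → PT (fun a => fac (Γ a) (nw a) m)

/-- increasing lists -/
def ST_EU : Prop := ∀ (d : ℕ) {α : Type} [TEnc α] (lo n : α → ℕ), PT lo → PT n →
  PT (fun a => subs d (lo a) (n a))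

/-- the code -/
def ST_EI : Prop := ∀ {α : Type} [TEnc α] (n : α → ℕ) (F : α → List (List ℕ)), PT n → PT F →
  PT (fun a => icode (n a) (F a))

/-- the gates -/
def ST_EW : Prop := ∀ {α : Type} [TEnc α] (K : α → ℕ) (Q : α → List (List (ℕ × ℕ))), PT K →
  PT Q → PT (fun a => wiring (K a) (Q a)) ∧ PT (fun a => nwr (K a) (Q a))

/-- the bilinear system -/
def ST_EB : Prop := ∀ {α : Type} [TEnc α] (E : α → List Be), PT E →
  PT (fun a => bil (E a)) ∧ PT (fun a => Kn (E a).length)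

/-- the code determines the instance -/
def ST_IJ : Prop := ∀ (d n n' : ℕ) (F F' : List (List ℕ)), 1 ≤ d → (∀ f ∈ F, f.length = d) →
  (∀ f ∈ F', f.length = d) → icode n F = icode n' F' → n = n' ∧ F = F'

/-! ### the result -/

/-- hardness for every fixed dimension at least five -/
def ST_MAIN : Prop := ∀ d : ℕ, 5 ≤ d → ∀ A : Set (List Bool), PolyRed A ETRL → PolyRed A (SPR d)

end Pool.Agent.Helper54.SP
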