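import Pool.Agent.Helper54.SP.Defs

/-!
Statements of the modules of the `SPR_d` project (blocks A, B).
-/

namespace Pool.Agent.Helper54.SP

open Finset

/-! ### Block A: determinants, liftings, polytopes -/

/-- swapping two neighbours changes the sign -/
def ST_DSW : Prop := ∀ (k : ℕ) (X : ℕ → ℕ → ℝ) (s t : List ℕ) (a b : ℕ),
  (s ++ a :: b :: t).length = k → dt k X (s ++ b :: a :: t) = -dt k X (s ++ a :: b :: t)

/-- moving an element over a list -/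
def ST_DMV : Prop := ∀ (k : ℕ) (X : ℕ → ℕ → ℝ) (s l t : List ℕ) (a : ℕ),
  (s ++ a :: (l ++ t)).length = k →
  dt k X (s ++ (l ++ a :: t)) = (-1) ^ l.length * dt k X (s ++ a :: (l ++ t))

/-- permuting a part of the list changes the determinant by a fixed sign -/
def ST_DP : Prop := ∀ l l' : List ℕ, l.Perm l' → ∃ ε : ℝ, (ε = 1 ∨ ε = -1) ∧
  ∀ (s t : List ℕ) (k : ℕ) (X : ℕ → ℕ → ℝ), s.length + l.length + t.length = k →
    dt k X (s ++ l' ++ t) = ε * dt k X (s ++ l ++ t)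

/-- one-sidedness is invariant under permutations -/
def ST_OSP : Prop := ∀ (k : ℕ) (X : ℕ → ℕ → ℝ) (n : ℕ) (f g : List ℕ), f.Perm g →
  f.length + 1 = k → OS k X n f → OS k X n g

/-- the `3 × 3` determinants of planar vectors -/
def ST_DT3 : Prop := ∀ x y : ℕ → ℝ,
  (∀ r, 2 ≤ r → dt 3 (pl x y) [0, 1, r] = -1) ∧
  (∀ q r, 2 ≤ q → 2 ≤ r → dt 3 (pl x y) [0, q, r] = x r - x q) ∧
  (∀ q r, 2 ≤ q → 2 ≤ r → dt 3 (pl x y) [1, q, r] = y q - y r) ∧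
  (∀ p q r, 2 ≤ p → 2 ≤ q → 2 ≤ r → dt 3 (pl x y) [p, q, r] =
    (x q - x p) * (y r - y p) - (x r - x p) * (y q - y p))

/-- lexicographic lifting of a configuration -/
def ST_LIFT : Prop := ∀ (k n : ℕ) (X : ℕ → ℕ → ℝ) (χ : List ℕ → Bool) (ρ : ℕ → ℕ),
  Agree k X n χ → (∀ i j, i ≤ n → j ≤ n → ρ i = ρ j → i = j) → (∀ i, i < n → ρ i < ρ n) →
  ∃ h : ℕ → ℝ, (∀ i, 0 < h i) ∧
    Agree (k + 1) (fun i j => if i < n then (if j < k then X i j else h i)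
      else (if j = k then 1 else 0)) (n + 1) (lexs ρ χ)

/-- conditions on the keys of the layers -/
def KeyOK (N m : ℕ) (ρ : ℕ → ℕ → ℕ) : Prop := ∀ c, c < m →
  (∀ i j, i ≤ N + c → j ≤ N + c → ρ c i = ρ c j → i = j) ∧
  (∀ i, i < N + c → ρ c i < ρ c (N + c)) ∧
  (∀ i j, i < N → N ≤ j → j < N + c → ρ c j < ρ c i)

/-- `m` liftings -/
def ST_LIFTM : Prop := ∀ (m N : ℕ) (X : ℕ → ℕ → ℝ) (σ : List ℕ → Bool) (ρ : ℕ → ℕ → ℕ),
  Agree 3 X N σ → KeyOK N m ρ → (∀ i, i < N → 0 < ∑ j ∈ range 3, X i j) →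
  ∃ Y : ℕ → ℕ → ℝ, Agree (3 + m) Y (N + m) (chi σ ρ m) ∧
    ∀ i, i < N + m → 0 < ∑ j ∈ range (3 + m), Y i j

/-- the lifted sign function alternates -/
def ST_ALT : Prop := ∀ (k n : ℕ) (χ : List ℕ → Bool) (ρ : ℕ → ℕ), Alt k n χ →
  (∀ i j, i ≤ n → j ≤ n → ρ i = ρ j → i = j) → (∀ i, i < n → ρ i < ρ n) →
  Alt (k + 1) (n + 1) (lexs ρ χ)

def ST_ALTM : Prop := ∀ (m N : ℕ) (σ : List ℕ → Bool) (ρ : ℕ → ℕ → ℕ), Alt 3 N σ →
  KeyOK N m ρ → Alt (3 + m) (N + m) (chi σ ρ m)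

/-- abstract permutation invariance -/
def ST_PRM : Prop := ∀ (k n : ℕ) (χ : List ℕ → Bool), Alt k n χ → ∀ l l' : List ℕ, l.Perm l' →
  l.Nodup → l.length + 1 = k → (∀ i ∈ l, i < n) →
  ∃ b : Bool, ∀ x, x < n → x ∉ l → χ (l' ++ [x]) = xor b (χ (l ++ [x]))

/-- members of the facet list -/
def ST_FMEM : Prop := ∀ (d n : ℕ) (χ : List ℕ → Bool) (f : List ℕ), f ∈ facets χ d n →
  f.length = d ∧ f.Nodup ∧ f.Pairwise (· < ·) ∧ (∀ i ∈ f, i < n) ∧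
  ∀ x y, x < n → y < n → x ∉ f → y ∉ f → χ (f ++ [x]) = χ (f ++ [y])

/-- one-sided lists are facets up to a permutation -/
def ST_MEMF : Prop := ∀ (d n : ℕ) (χ : List ℕ → Bool) (g : List ℕ), Alt (d + 1) n χ →
  g.length = d → g.Nodup → (∀ i ∈ g, i < n) →
  (∀ x y, x < n → y < n → x ∉ g → y ∉ g → χ (g ++ [x]) = χ (g ++ [y])) →
  ∃ f ∈ facets χ d n, f.Perm g

/-- membership in the facet list in terms of real one-sidedness -/
def ST_MEMR : Prop := ∀ (d n : ℕ) (χ : List ℕ → Bool) (X : ℕ → ℕ → ℝ), Agree (d + 1) X n χ →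
  ∀ f : List ℕ, f ∈ facets χ d n ↔ (f.Pairwise (· < ·) ∧ f.length = d ∧ (∀ i ∈ f, i < n) ∧
    OS (d + 1) X n f)

/-- a uniform configuration in a half space is a simplicial polytope whose facets are the
one-sided `d`-subsets -/
def ST_POLY : Prop := ∀ (d n : ℕ) (X : ℕ → ℕ → ℝ) (χ : List ℕ → Bool), 1 ≤ d → d < n →
  Agree (d + 1) X n χ → (∀ i, i < n → 0 < ∑ j ∈ range (d + 1), X i j) →
  (∀ i, i < n → ∃ f ∈ facets χ d n, i ∈ f) → Realizable d n (facets χ d n)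

/-- facets of a realization are one-sided -/
def ST_FAC : Prop := ∀ (d n : ℕ) (F : List (List ℕ)), 1 ≤ d → Valid d n F → Realizable d n F →
  ∃ X : ℕ → ℕ → ℝ, ∀ f ∈ F, OS (d + 1) X n f

/-- projective normalization -/
def ST_NORM : Prop := ∀ (N m : ℕ) (X : ℕ → ℕ → ℝ), 4 ≤ N → br N m X 0 1 2 ≠ 0 →
  (∀ p, 3 ≤ p → p < N → 0 < br N m X 0 1 2 * br N m X 0 1 p ∧
    0 < br N m X 0 1 2 * br N m X 0 p 2 ∧ 0 < br N m X 0 1 2 * br N m X p 1 2) →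
  ∃ (x y w : ℕ → ℝ) (τ : ℝ), τ ≠ 0 ∧ (∀ p, p < N → 0 < w p) ∧ x 2 = 0 ∧ y 2 = 0 ∧
    x 3 = 1 ∧ y 3 = 1 ∧ ∀ p q r, p < N → q < N → r < N →
      br N m X p q r = τ * (w p * w q * w r) * dt 3 (pl x y) [p, q, r]

/-- fan facets of the combinatorial sign function -/
def ST_FANF : Prop := ∀ (m N : ℕ) (σ : List ℕ → Bool) (ρ : ℕ → ℕ → ℕ) (c o p q : ℕ),
  KeyOK N m ρ → c < m → o < N → p < N → q < N → ρ c o < ρ c p → ρ c p < ρ c q →
  (∀ x, x < N → x ≠ o → x ≠ p → x ≠ q → ρ c x < ρ c q → σ [o, p, x] = !σ [o, p, q]) →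
  ∀ x y, x < N + m → y < N + m → x ∉ [o, p, q] ++ aex N m c → y ∉ [o, p, q] ++ aex N m c →
    chi σ ρ m (([o, p, q] ++ aex N m c) ++ [x]) = chi σ ρ m (([o, p, q] ++ aex N m c) ++ [y])

/-- facets containing all apices -/
def ST_HULF : Prop := ∀ (m N : ℕ) (σ : List ℕ → Bool) (ρ : ℕ → ℕ → ℕ) (o o' : ℕ),
  KeyOK N m ρ → o < N → o' < N → o ≠ o' →
  (∀ x y, x < N → y < N → x ≠ o → x ≠ o' → y ≠ o → y ≠ o' → σ [o, o', x] = σ [o, o', y]) →
  ∀ x y, x < N + m → y < N + m → x ∉ [o, o'] ++ apx N m → y ∉ [o, o'] ++ apx N m →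
    chi σ ρ m (([o, o'] ++ apx N m) ++ [x]) = chi σ ρ m (([o, o'] ++ apx N m) ++ [y])

/-- two neighbouring fan facets give equal signs -/
def ST_ADJ : Prop := ∀ (N m : ℕ) (X : ℕ → ℕ → ℝ) (c o p q r : ℕ), c < m →
  [o, p, q, r].Nodup → o < N → p < N → q < N → r < N →
  OS (3 + m) X (N + m) ([o, p, q] ++ aex N m c) → OS (3 + m) X (N + m) ([o, q, r] ++ aex N m c) →
  0 < br N m X o p q * br N m X o q r

/-- the bracket of a fan facet does not vanish -/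
def ST_ADJ0 : Prop := ∀ (N m : ℕ) (X : ℕ → ℕ → ℝ) (c o p q : ℕ), c < m →
  o < N → p < N → q < N → OS (3 + m) X (N + m) ([o, p, q] ++ aex N m c) →
  br N m X o p q ≠ 0

/-- facets containing all apices give equal signs -/
def ST_HUL : Prop := ∀ (N m : ℕ) (X : ℕ → ℕ → ℝ) (o o' x y : ℕ), o < N → o' < N → x < N → y < N →
  x ≠ o → x ≠ o' → y ≠ o → y ≠ o' → OS (3 + m) X (N + m) ([o, o'] ++ apx N m) →
  0 < br N m X o o' x * br N m X o o' y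

/-- symmetries of the bracket -/
def ST_BR : Prop := ∀ (N m : ℕ) (X : ℕ → ℕ → ℝ) (p q r : ℕ),
  br N m X q p r = -br N m X p q r ∧ br N m X p r q = -br N m X p q r ∧
  br N m X q r p = br N m X p q r ∧ br N m X r p q = br N m X p q r

/-- neighbours in the order given by a key on a set -/
def Nbr (N : ℕ) (S : ℕ → Prop) (key : ℕ → ℕ) (p q : ℕ) : Prop :=
  p < N ∧ q < N ∧ S p ∧ S q ∧ key p < key q ∧
    ∀ r, r < N → S r → ¬ (key p < key r ∧ key r < key q)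

/-- a transitive relation between neighbours extends -/
def ST_MONO : Prop := ∀ (N : ℕ) (S : ℕ → Prop) (key : ℕ → ℕ) (R : ℕ → ℕ → Prop),
  (∀ p q, p < N → q < N → S p → S q → key p = key q → p = q) →
  (∀ p q r, p < N → q < N → r < N → S p → S q → S r → R p q → R q r → R p r) →
  (∀ p q, Nbr N S key p q → R p q) →
  ∀ p q, p < N → q < N → S p → S q → key p < key q → R p q

/-- equal signs propagate along neighbours -/
def ST_LINK : Prop := ∀ (N : ℕ) (S : ℕ → Prop) (key : ℕ → ℕ) (f : ℕ → ℕ → ℝ),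
  (∀ p q, p < N → q < N → S p → S q → key p = key q → p = q) →
  (∀ p q, Nbr N S key p q → f p q ≠ 0) →
  (∀ p q r, Nbr N S key p q → Nbr N S key q r → 0 < f p q * f q r) →
  ∀ p q p' q', Nbr N S key p q → Nbr N S key p' q' → 0 < f p q * f p' q'

/-! ### Block B: the planar sign function -/

/-- well-formed lists of gates on the wires `0, …, nw-1` -/
structure WF (Γ : List Gt) (nw : ℕ) : Prop where
  sorted : ∀ s t, s < t → t < Γ.length → (Γ.getD t (false, 0, 0, 0, 0, 0)).k = true →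
    (Γ.getD s (false, 0, 0, 0, 0, 0)).k = true
  clt : ∀ g ∈ Γ, g.c < Γ.length
  cinj : ∀ s t, s < Γ.length → t < Γ.length → (Γ.getD s (false, 0, 0, 0, 0, 0)).c =
    (Γ.getD t (false, 0, 0, 0, 0, 0)).c → s = t
  wires : ∀ g ∈ Γ, g.u < g.u' ∧ g.a < g.a' ∧ g.u' < nw ∧ g.a' < nw ∧ g.u ≠ g.a ∧ g.u ≠ g.a' ∧
    g.u' ≠ g.a ∧ g.u' ≠ g.a'
  out : ∀ s t, s < Γ.length → t < Γ.length → (Γ.getD s (false, 0, 0, 0, 0, 0)).a' =
    (Γ.getD t (false, 0, 0, 0, 0, 0)).a' → s = t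
  topo : ∀ g ∈ Γ, ∀ h ∈ Γ, (g.a' = h.u ∨ g.a' = h.u' ∨ g.a' = h.a) → g.c < h.c

/-- the planar sign function alternates -/
def ST_SALT : Prop := ∀ Γ : List Gt, Alt 3 (NN Γ) (sgm Γ)

/-- the keys are injective and bounded -/
def ST_KINJ : Prop := ∀ (Γ : List Gt) (nw : ℕ), WF Γ nw →
  (∀ p q, 2 ≤ p → 2 ≤ q → p < NN Γ → q < NN Γ → xk p = xk q → p = q) ∧
  (∀ p q, 2 ≤ p → 2 ≤ q → p < NN Γ → q < NN Γ → yk Γ p = yk Γ q → p = q) ∧
  (∀ p q, 4 ≤ p → 4 ≤ q → p < NN Γ → q < NN Γ → sk Γ p = sk Γ q → p = q) ∧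
  (∀ p, p < NN Γ → xk p + 5 < BG Γ nw ∧ yk Γ p + 5 < BG Γ nw ∧ sk Γ p + 5 < BG Γ nw) ∧
  (∀ p, 4 ≤ p → p < NN Γ → (gat Γ p ∈ Γ) ∧ 2 ≤ xk p ∧ 2 ≤ yk Γ p ∧ grp p - 1 < Γ.length)

/-- the keys of the layers are admissible -/
def ST_KEY : Prop := ∀ (Γ : List Gt) (nw m : ℕ), WF Γ nw → KeyOK (NN Γ) m (rho Γ nw)

/-- fan around the vertical direction -/
def ST_FX : Prop := ∀ (Γ : List Gt) (nw : ℕ), WF Γ nw → ∀ p q, 2 ≤ p → 2 ≤ q → p < NN Γ →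
  q < NN Γ → xk p < xk q → sg3 Γ 0 p q = true ∧ sg3 Γ 0 q p = false

/-- fan around the horizontal direction -/
def ST_FY : Prop := ∀ (Γ : List Gt) (nw : ℕ), WF Γ nw → ∀ p q, 2 ≤ p → 2 ≤ q → p < NN Γ →
  q < NN Γ → yk Γ p < yk Γ q → sg3 Γ 1 p q = false ∧ sg3 Γ 1 q p = true

/-- fan around `(1,1)` -/
def ST_F4 : Prop := ∀ (Γ : List Gt) (nw : ℕ), WF Γ nw → ∀ p q, 4 ≤ p → 4 ≤ q → p < NN Γ →
  q < NN Γ → (gat Γ p).k = true → (gat Γ q).k = true → sk Γ p < sk Γ q →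
  sg3 Γ 3 p q = false ∧ sg3 Γ 3 q p = true

/-- fan around `(0,0)` -/
def ST_F3 : Prop := ∀ (Γ : List Gt) (nw : ℕ), WF Γ nw → ∀ q, 4 ≤ q → q < NN Γ →
  (gat Γ q).k = false →
  (∀ p, 4 ≤ p → p < NN Γ → (gat Γ p).k = false → sk Γ p < sk Γ q →
    sg3 Γ 2 p q = false ∧ sg3 Γ 2 q p = true) ∧
  (∀ x, x = 3 ∨ (4 ≤ x ∧ x < NN Γ ∧ (gat Γ x).k = true) → sg3 Γ 2 q x = true)

/-- signs of the hull -/
def ST_FH : Prop := ∀ (Γ : List Gt) (nw : ℕ), WF Γ nw →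
  (∀ x, 2 ≤ x → x < NN Γ → sg3 Γ 0 1 x = false) ∧
  (∀ x, x ≠ 0 → x ≠ 2 → x < NN Γ → sg3 Γ 0 2 x = true) ∧
  (∀ x, x ≠ 1 → x ≠ 2 → x < NN Γ → sg3 Γ 1 2 x = false)

/-- the class of points of the gates of one type -/
def Sty (Γ : List Gt) (b : Bool) (p : ℕ) : Prop := 4 ≤ p ∧ (gat Γ p).k = b

/-- all fans and hull facets occur in the list -/
def Fans (Γ : List Gt) (m : ℕ) (P : List ℕ → Prop) : Prop :=
  (∀ p q, Nbr (NN Γ) (fun p => 2 ≤ p) xk p q → P ([0, p, q] ++ aex (NN Γ) m 0)) ∧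
  (∀ p q, Nbr (NN Γ) (fun p => 2 ≤ p) (yk Γ) p q → P ([1, p, q] ++ aex (NN Γ) m 1)) ∧
  (∀ p q, Nbr (NN Γ) (Sty Γ true) (sk Γ) p q → P ([3, p, q] ++ aex (NN Γ) m 2)) ∧
  (∀ p q, Nbr (NN Γ) (Sty Γ false) (sk Γ) p q → P ([2, p, q] ++ aex (NN Γ) m 2)) ∧
  P ([0, 1] ++ apx (NN Γ) m) ∧ P ([0, 2] ++ apx (NN Γ) m) ∧ P ([1, 2] ++ apx (NN Γ) m)

def ST_FANS : Prop := ∀ (Γ : List Gt) (nw m : ℕ), WF Γ nw → 3 ≤ m →
  Fans Γ m (fun g => ∃ f ∈ fac Γ nw m, f.Perm g)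

/-- centre of a gate type -/
noncomputable def cen (b : Bool) : ℝ := if b then 1 else 0

/-- planar points with the prescribed orders -/
structure Orders (Γ : List Gt) (x y : ℕ → ℝ) : Prop where
  x2 : x 2 = 0
  y2 : y 2 = 0
  x3 : x 3 = 1
  y3 : y 3 = 1
  xo : ∀ p q, 2 ≤ p → 2 ≤ q → p < NN Γ → q < NN Γ → xk p < xk q → x p < x q
  yo : ∀ p q, 2 ≤ p → 2 ≤ q → p < NN Γ → q < NN Γ → yk Γ p < yk Γ q → y p < y q
  so : ∀ b p q, Sty Γ b p → Sty Γ b q → p < NN Γ → q < NN Γ → sk Γ p < sk Γ q →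
    (y q - cen b) * (x p - cen b) < (y p - cen b) * (x q - cen b)

/-- a configuration with one-sided fans has the prescribed orders -/
def ST_ORD : Prop := ∀ (Γ : List Gt) (nw m : ℕ) (X : ℕ → ℕ → ℝ), WF Γ nw → 3 ≤ m →
  Fans Γ m (OS (3 + m) X (NN Γ + m)) → ∃ x y : ℕ → ℝ, Orders Γ x y

/-- the gate equations -/
def Eqs (Γ : List Gt) (v : ℕ → ℝ) : Prop := ∀ g ∈ Γ,
  (v g.a' - cen g.k) * (v g.u - cen g.k) = (v g.a - cen g.k) * (v g.u' - cen g.k)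

/-- the wire is used -/
def Att (Γ : List Gt) (z : ℕ) : Prop := ∃ g ∈ Γ, z = g.u ∨ z = g.u' ∨ z = g.a ∨ z = g.a'

/-- exact values of the wires -/
def Sol (Γ : List Gt) (v : ℕ → ℝ) : Prop := Eqs Γ v ∧ (∀ z, Att Γ z → 1 < v z) ∧
  ∀ z z', Att Γ z → Att Γ z' → z < z' → v z < v z'

/-- exact values with a margin -/
def Nice (Γ : List Gt) (nw : ℕ) (v : ℕ → ℝ) : Prop := Eqs Γ v ∧
  (∀ z, z < nw → 2 < v z ∧ v z < 2 + 1 / 100) ∧ (∀ z z', z < z' → z' < nw → v z < v z') ∧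
  ∀ g ∈ Γ, 1000 * (v g.u' - v g.u) < |v g.a - v g.u|

/-- the inequality of a gate (upper chain) -/
def ST_GIN : Prop := ∀ xa ya xb yb xc yc xd yd u u' a : ℝ, 0 < xa → 0 < xb → 0 < xc → 0 < xd →
  0 < ya → 0 < u' → 0 < a → ya < u → u' < yb → a < yc → xc < xa → xb < xd →
  yb * xa < ya * xb → yc * xd < yd * xc → a * u' < yd * u

/-- the inequality of a gate (lower chain) -/
def ST_GIN' : Prop := ∀ xa ya xb yb xc yc xd yd u u' a : ℝ, 0 < xa → 0 < xb → 0 < xc → 0 < xd →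
  0 < yb → 0 < yc → 0 < u → 0 < yd → u < ya → yb < u' → yc < a → xa < xc → xd < xb →
  ya * xb < yb * xa → yd * xc < yc * xd → yd * u < a * u'

/-- orders give exact values -/
def ST_QS : Prop := ∀ (Γ : List Gt) (nw : ℕ) (x y : ℕ → ℝ), WF Γ nw → Orders Γ x y →
  ∃ v, Sol Γ v

/-! coordinates of the corners -/

/-- horizontal coordinate of a corner relative to the centre, in units of the scale -/
noncomputable def cox (U U' e : ℝ) (t : ℕ) : ℝ :=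
  if t = 0 then 1 - e else if t = 1 then 1 + e else if t = 2 then U' / U + 30 * e
  else if t = 3 then U' / U - 30 * e else if t = 4 then 1 - e / 2 else if t = 5 then 1 + e / 2
  else if t = 6 then U' / U + 31 * e else U' / U - 31 * e

/-- multiples of the slack in the vertical coordinate -/
noncomputable def mul8 (k : Bool) (t : ℕ) : ℝ :=
  if t = 0 then 10 else if t = 1 then -10 else if t = 2 then (if k then 15 else 45)
  else if t = 3 then (if k then -15 else -45) else if t = 4 then 10 else if t = 5 then -10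
  else if t = 6 then 124 else -124

/-- vertical coordinate of a corner relative to the centre -/
noncomputable def coy (k : Bool) (U U' A A' e : ℝ) (t : ℕ) : ℝ :=
  (if t < 2 then U else if t < 4 then U' else if t < 6 then A else A') + mul8 k t * e

/-- hypotheses on a gate -/
structure GH (k : Bool) (U U' A A' e : ℝ) : Prop where
  U0 : 2 - cen k < U
  U1 : U < U'
  U2 : U' < 2 - cen k + 1 / 100
  A0 : 2 - cen k < A
  A1 : A < A'
  A2 : A' < 2 - cen k + 1 / 100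
  eq : A' * U = A * U'
  gap : 1000 * (U' - U) < |A - U|
  e0 : 0 < e
  e1 : 1000000 * e ≤ (U' - U) * |A - U|

/-- slope rank of a corner, `s` is the truth value of `U < A` -/
def srk (s : Bool) (t : ℕ) : ℕ := sr t + if (decide (4 ≤ t)) = s then 4 else 0

def ST_GX : Prop := ∀ (k : Bool) (U U' A A' e : ℝ), GH k U U' A A' e →
  (∀ t, t < 8 → 0 < cox U U' e t) ∧
  ∀ s t, s < 8 → t < 8 → xr s < xr t → cox U U' e s < cox U U' e t

def ST_GS : Prop := ∀ (k : Bool) (U U' A A' e : ℝ) (b : Bool), GH k U U' A A' e →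
  (b = true ↔ U < A) → ∀ s t, s < 8 → t < 8 → srk b s < srk b t →
  coy k U U' A A' e s * cox U U' e t < coy k U U' A A' e t * cox U U' e s

/-- pairs of corners whose line passes near the centre -/
def ctp (q r : ℕ) : Prop := (q / 2 = 0 ∧ r / 2 = 1) ∨ (q / 2 = 1 ∧ r / 2 = 1) ∨
  (q / 2 = 2 ∧ r / 2 = 3)

def ST_GD1 : Prop := ∀ (k : Bool) (U U' A A' e : ℝ), GH k U U' A A' e →
  ∀ q r h, q < r → r < 8 → ctp q r →
  ((2 - cen k - 1 / 100 < h ∧ h < 2 - cen k + 2 / 100) ∨ (k = false ∧ h = 1) →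
    0 < sb (decide (xr q < xr r)) * (cox U U' e q * (coy k U U' A A' e r - h) -
      cox U U' e r * (coy k U U' A A' e q - h))) ∧
  (k = true ∧ h = -1 →
    0 < sb (!decide (xr q < xr r)) * (cox U U' e q * (coy k U U' A A' e r - h) -
      cox U U' e r * (coy k U U' A A' e q - h)))

def ST_GD2 : Prop := ∀ (k : Bool) (U U' A A' e : ℝ), GH k U U' A A' e →
  ∀ q r h, q < r → r < 8 → ¬ ctp q r →
  ((2 - cen k - 1 / 100 < h ∧ h < 2 - cen k + 2 / 100) ∨ (k = false ∧ h = 1) ∨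
    (k = true ∧ h = -1)) →
  (coy k U U' A A' e q < coy k U U' A A' e r →
    0 < cox U U' e q * (coy k U U' A A' e r - h) - cox U U' e r * (coy k U U' A A' e q - h)) ∧
  (coy k U U' A A' e r < coy k U U' A A' e q →
    cox U U' e q * (coy k U U' A A' e r - h) - cox U U' e r * (coy k U U' A A' e q - h) < 0)

def ST_GT : Prop := ∀ (k : Bool) (U U' A A' e : ℝ) (b : Bool), GH k U U' A A' e →
  (b = true ↔ U < A) → ∀ p q r, p < q → q < r → r < 8 →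
  0 < sb (tb (p / 2) (q / 2) (r / 2) b) *
    ((cox U U' e q - cox U U' e p) * (coy k U U' A A' e r - coy k U U' A A' e p) -
      (cox U U' e r - cox U U' e p) * (coy k U U' A A' e q - coy k U U' A A' e p))

/-- rapidly increasing scales -/
def ST_SC : Prop := ∀ (K : ℕ) (κ ξ y : ℕ → ℝ),
  (∀ p, 4 ≤ p → p < 4 + 8 * K → 0 < ξ p) →
  (∀ p q, 2 ≤ p → 2 ≤ q → p < 4 + 8 * K → q < 4 + 8 * K → p ≠ q → y p ≠ y q) →
  (∀ p q r, 2 ≤ p → grp p < grp q → grp q = grp r → q ≠ r → q < 4 + 8 * K → r < 4 + 8 * K →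
    ξ q * (y r - y p) - ξ r * (y q - y p) ≠ 0) →
  ∃ c : ℕ → ℝ, (∀ s, 0 < c s) ∧ ∀ x : ℕ → ℝ, x 2 = 0 → x 3 = 1 →
    (∀ p, 4 ≤ p → p < 4 + 8 * K → x p = κ (grp p) + c (grp p) * ξ p) →
    (∀ p q, 2 ≤ p → 2 ≤ q → q < 4 + 8 * K → grp p < grp q → x p < x q) ∧
    (∀ p q r, 2 ≤ p → 2 ≤ q → p ≠ q → grp p < grp r → grp q < grp r → r < 4 + 8 * K →
      0 < -(y q - y p) * ((x q - x p) * (y r - y p) - (x r - x p) * (y q - y p))) ∧
    (∀ p q r, 2 ≤ p → grp p < grp q → grp q = grp r → q ≠ r → q < 4 + 8 * K →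
      r < 4 + 8 * K → 0 < (ξ q * (y r - y p) - ξ r * (y q - y p)) *
        ((x q - x p) * (y r - y p) - (x r - x p) * (y q - y p)))

/-- the ordinate of a point with slacks `e · 100^c` -/
noncomputable def yv (Γ : List Gt) (v : ℕ → ℝ) (e : ℝ) (p : ℕ) : ℝ :=
  if p < 4 then (if p = 3 then 1 else 0)
  else v (wir Γ p) + mul8 (gat Γ p).k (crn p) * (e * 100 ^ (gat Γ p).c)

/-- choice of the slacks -/
def ST_YO : Prop := ∀ (Γ : List Gt) (nw : ℕ) (v : ℕ → ℝ), WF Γ nw → Nice Γ nw v →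
  ∃ e : ℝ, 0 < e ∧
    (∀ g ∈ Γ, GH g.k (v g.u - cen g.k) (v g.u' - cen g.k) (v g.a - cen g.k) (v g.a' - cen g.k)
      (e * 100 ^ g.c)) ∧
    (∀ p, 4 ≤ p → p < NN Γ → 2 - 1 / 100 < yv Γ v e p ∧ yv Γ v e p < 2 + 2 / 100) ∧
    ∀ p q, 2 ≤ p → 2 ≤ q → p < NN Γ → q < NN Γ → yk Γ p < yk Γ q → yv Γ v e p < yv Γ v e q

/-- exact values with a margin give a planar configuration with the prescribed signs -/
def ST_QC : Prop := ∀ (Γ : List Gt) (nw : ℕ) (v : ℕ → ℝ), WF Γ nw → Nice Γ nw v →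
  ∃ x y : ℕ → ℝ, (∀ p, 2 ≤ p → p < NN Γ → 0 ≤ x p ∧ 0 ≤ y p) ∧
    ∀ p q r, p < q → q < r → r < NN Γ → 0 < sb (sg0 Γ p q r) * dt 3 (pl x y) [p, q, r]

/-- completeness of the geometric part -/
def ST_COMP : Prop := ∀ (Γ : List Gt) (nw m : ℕ) (v : ℕ → ℝ), WF Γ nw → 3 ≤ m →
  Nice Γ nw v → Realizable (2 + m) (NN Γ + m) (fac Γ nw m)

/-- soundness of the geometric part -/
def ST_SND : Prop := ∀ (Γ : List Gt) (nw m : ℕ), WF Γ nw → 3 ≤ m →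
  Realizable (2 + m) (NN Γ + m) (fac Γ nw m) → ∃ v, Sol Γ v

end Pool.Agent.Helper54.SP
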