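import Pool.Agent.Helper11.SP.QS
import Pool.Agent.Helper11.SP.SC
import Pool.Agent.Helper11.SP.WS
import Pool.Agent.Helper2.SP.FAC
import Pool.Agent.Helper2.SP.RW
import Pool.Agent.Helper24.SP.ORD
import Pool.Agent.Helper28.SP.EI
import Pool.Agent.Helper28.SP.FB1
import Pool.Agent.Helper28.SP.LIFTM
import Pool.Agent.Helper35.SP.MEMR
import Pool.Agent.Helper37.SP.F3
import Pool.Agent.Helper37.SP.P2
import Pool.Agent.Helper38.SP.FB
import Pool.Agent.Helper41.SP.GT2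
import Pool.Agent.Helper45.SP.COV
import Pool.Agent.Helper45.SP.GX
import Pool.Agent.Helper45.SP.WN
import Pool.Agent.Helper49.SP.DET
import Pool.Agent.Helper49.SP.GEO
import Pool.Agent.Helper51.SP.COMP
import Pool.Agent.Helper51.SP.QC
import Pool.Agent.Helper51.SP.SND
import Pool.Agent.Helper52.SP.E8
import Pool.Agent.Helper52.SP.EB
import Pool.Agent.Helper52.SP.EF
import Pool.Agent.Helper52.SP.ES
import Pool.Agent.Helper52.SP.RS
import Pool.Agent.Helper53.SP.ER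
import Pool.Agent.Helper54.SP.RB
import Pool.Agent.Helper54.SP.RD
import Pool.Agent.Helper61.SP.ALT
import Pool.Agent.Helper61.SP.EC
import Pool.Agent.Helper61.SP.EW
import Pool.Agent.Helper61.SP.KEY
import Pool.Agent.Helper61.SP.WMEM
import Pool.Agent.Helper63.SP.LIFT
import Pool.Agent.Helper67.SP.ALTM
import Pool.Agent.Helper67.SP.BR
import Pool.Agent.Helper67.SP.EU
import Pool.Agent.Helper67.SP.FX
import Pool.Agent.Helper67.SP.FY
import Pool.Agent.Helper7.SP.LINK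
import Pool.Agent.Helper77.SP.FANF
import Pool.Agent.Helper8.SP.LE1
import Pool.Agent.Helper8.SP.WWF
import Pool.Agent.Helper81.SP.FMEM
import Pool.Agent.Helper81.SP.LE2
import Pool.Agent.Helper81.SP.MONO
import Pool.Agent.Helper81.SP.SALT
import Pool.Agent.Helper82.SP.FANS
import Pool.Agent.Helper82.SP.POLY
import Pool.Agent.Helper82.SP.YO
import Pool.Agent.Helper85.SP.GT1
import Pool.Agent.Helper88.SP.EK
import Pool.Agent.Helper88.SP.NORM
import Pool.Agent.Helper88.SP.P1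
import Pool.Agent.Helper89.SP.F4
import Pool.Agent.Helper89.SP.PH
import Pool.Agent.Helper89.SP.PRM
import Pool.Agent.Helper9.SP.COO
import Pool.Agent.Helper9.SP.GD1
import Pool.Agent.Helper9.SP.GD2
import Pool.Agent.Helper9.SP.GS
import Pool.Agent.Helper9.SP.KINJ
import Pool.Agent.Helper91.SP.IJ
import Pool.Agent.Helper91.SP.MEMF
import Pool.Agent.Helper92.SPR.DT3
import Pool.Agent.Helper92.SPR.FH
import Pool.Agent.Helper92.SPR.GIN
import Pool.Agent.Helper92.SPR.GT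
import Pool.Agent.Helper92.SPR.WP
import Pool.Agent.Helper92.SPR.WT
import Pool.Agent.Helper95.SP.WC
import Pool.Agent.Helper97.SP.RC
import Pool.Agent.Helper54.SP.Main

/-!
All modules of the `SPR_d` project together.
-/

namespace Pool.Agent.Helper54.SP

theorem all_DSW : ST_DSW :=
  st_DSW
theorem all_DMV : ST_DMV :=
  st_DMV all_DSW
theorem all_ADJ : ST_ADJ :=
  st_ADJ all_DMV
theorem all_ADJ0 : ST_ADJ0 :=
  st_ADJ0 all_DMV
theorem all_AMX : ST_AMX :=
  st_AMX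
theorem all_ALT : ST_ALT :=
  st_ALT all_AMX
theorem all_ALTM : ST_ALTM :=
  st_ALTM all_ALT
theorem all_BR : ST_BR :=
  st_BR all_DSW
theorem all_YO : ST_YO :=
  st_YO
theorem all_GX : ST_GX :=
  st_GX
theorem all_GS : ST_GS :=
  st_GS
theorem all_GD1 : ST_GD1 :=
  st_GD1
theorem all_GD2 : ST_GD2 :=
  st_GD2
theorem all_GT1 : ST_GT1 :=
  st_GT1
theorem all_GT2 : ST_GT2 :=
  st_GT2
theorem all_GT : ST_GT :=
  Pool.Agent.Helper92.SPR.st_GT all_GT1 all_GT2
theorem all_SC : ST_SC :=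
  st_SC
theorem all_DT3 : ST_DT3 :=
  Pool.Agent.Helper92.SPR.st_DT3
theorem all_KINJ : ST_KINJ :=
  st_KINJ
theorem all_QC : ST_QC :=
  st_QC all_YO all_GX all_GS all_GD1 all_GD2 all_GT all_SC all_DT3 all_KINJ
theorem all_KEY : ST_KEY :=
  st_KEY all_KINJ
theorem all_LE1 : ST_LE1 :=
  st_LE1
theorem all_LE2 : ST_LE2 :=
  st_LE2
theorem all_LIFT : ST_LIFT :=
  st_LIFT all_LE1 all_LE2 all_AMX
theorem all_LIFTM : ST_LIFTM :=
  st_LIFTM all_LIFT
theorem all_PH : ST_PH :=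
  st_PH
theorem all_PI : ST_PI :=
  st_PI
theorem all_PA : ST_PA :=
  st_PA all_PI
theorem all_PF : ST_PF :=
  st_PF
theorem all_PC : ST_PC :=
  st_PC
theorem all_P1 : ST_P1 :=
  st_P1 all_PF all_PC all_PI
theorem all_P2 : ST_P2 :=
  st_P2 all_PF all_PC all_PI
theorem all_P3 : ST_P3 :=
  st_P3 all_PF all_PC all_PI
theorem all_MEMR : ST_MEMR :=
  st_MEMR
theorem all_POLY : ST_POLY :=
  st_POLY all_PH all_PA all_P1 all_P2 all_P3 all_MEMR
theorem all_PRM : ST_PRM :=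
  st_PRM
theorem all_MEMF : ST_MEMF :=
  st_MEMF all_PRM
theorem all_SALT : ST_SALT :=
  st_SALT
theorem all_FB1 : ST_FB1 :=
  st_FB1 all_AMX
theorem all_FB2 : ST_FB2 :=
  st_FB2
theorem all_FB3 : ST_FB3 :=
  st_FB3
theorem all_FANF : ST_FANF :=
  st_FANF all_AMX all_FB1 all_FB2 all_FB3
theorem all_HULF : ST_HULF :=
  st_HULF
theorem all_FX : ST_FX :=
  st_FX
theorem all_FY : ST_FY :=
  st_FY
theorem all_F4 : ST_F4 :=
  st_F4 all_KINJ
theorem all_F3 : ST_F3 :=
  st_F3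
theorem all_FH : ST_FH :=
  Pool.Agent.Helper92.SPR.st_FH all_KINJ
theorem all_FANS : ST_FANS :=
st_FANS all_MEMF all_ALTM all_SALT all_KEY all_KINJ all_FANF all_HULF all_FX all_FY all_F4
    all_F3 all_FH
theorem all_COV : ST_COV :=
  st_COV
theorem all_COMP : ST_COMP :=
  st_COMP all_QC all_KEY all_LIFTM all_POLY all_FANS all_COV
theorem all_COO : ST_COO :=
  st_COO
theorem all_DP : ST_DP :=
  st_DP all_DSW
theorem all_E8 : ST_E8 :=
  st_E8
theorem all_EB : ST_EB :=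
  st_EB
theorem all_EK : ST_EK :=
  st_EK all_E8
theorem all_ES : ST_ES :=
  st_ES all_E8 all_EK
theorem all_ER : ST_ER :=
  st_ER all_EK
theorem all_EC : ST_EC :=
  st_EC all_ES all_ER
theorem all_EU : ST_EU :=
  st_EU
theorem all_EF : ST_EF :=
  st_EF all_EC all_EU
theorem all_EI : ST_EI :=
  st_EI
theorem all_EW : ST_EW :=
  st_EW
theorem all_PJ : ST_PJ :=
  st_PJ
theorem all_FAC : ST_FAC :=
  st_FAC all_PF all_PJ
theorem all_FMEM : ST_FMEM :=
  st_FMEM
theorem all_GIN : ST_GIN :=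
  Pool.Agent.Helper92.SPR.st_GIN
theorem all_GIN' : ST_GIN' :=
  Pool.Agent.Helper92.SPR.st_GIN'
theorem all_HUL : ST_HUL :=
  st_HUL all_DMV
theorem all_IJ : ST_IJ :=
  st_IJ
theorem all_LINK : ST_LINK :=
  st_LINK
theorem all_MONO : ST_MONO :=
  st_MONO
theorem all_NORM : ST_NORM :=
  st_NORM all_COO all_BR
theorem all_ORD : ST_ORD :=
  st_ORD all_ADJ all_ADJ0 all_HUL all_BR all_NORM all_DT3 all_MONO all_LINK all_KINJ
theorem all_OSP : ST_OSP :=
  st_OSP all_DP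
theorem all_QS : ST_QS :=
  st_QS all_GIN all_GIN'
theorem all_RB : ST_RB :=
  st_RB
theorem all_RC : ST_RC :=
  st_RC all_RB
theorem all_RD : ST_RD :=
  st_RD
theorem all_RG : ST_RG :=
  st_RG
theorem all_RS : ST_RS :=
  st_RS all_RG
theorem all_RW : ST_RW :=
  Pool.Agent.Helper2.SP.st_RW
theorem all_SND : ST_SND :=
  st_SND all_FAC all_FMEM all_OSP all_FANS all_ORD all_QS
theorem all_WMEM : ST_WMEM :=
  st_WMEM
theorem all_WN : ST_WN :=
  st_WN
theorem all_WC : ST_WC :=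
  st_WC all_WMEM all_WN
theorem all_WP : ST_WP :=
  Pool.Agent.Helper92.SPR.st_WP
theorem all_WT : ST_WT :=
  Pool.Agent.Helper92.SPR.st_WT
theorem all_WS : ST_WS :=
  st_WS all_WMEM all_WT all_WP
theorem all_WWF : ST_WWF :=
  st_WWF all_WMEM
theorem all_MAIN : ST_MAIN :=
st_MAIN all_RD all_RW all_RS all_RC all_WWF all_WS all_WC all_COMP all_SND all_FMEM all_IJ
    all_EK all_EF all_EI all_EW all_EB

end Pool.Agent.Helper54.SP
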