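import Mathlib
import Pool.Agent.Helper54.ETRDefs

/-!
Simplicial polytope realizability `SPR_d` in fixed dimension: the definitions used in the
statement of the result.
-/

namespace Pool.Agent.Helper54.SP

/-- `Q` is a facet of the convex set `P` in `ℝ^d`: the part of `P` on a supporting hyperplane,
nonempty and of dimension `d - 1`. -/
def IsFacet (d : ℕ) (P Q : Set (Fin d → ℝ)) : Prop :=
  ∃ (l : (Fin d → ℝ) →ₗ[ℝ] ℝ) (c : ℝ), (∀ x ∈ P, l x ≤ c) ∧ Q = {x ∈ P | l x = c} ∧
    Q.Nonempty ∧ Module.finrank ℝ (vectorSpan ℝ Q) + 1 = d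

/-- There are pairwise distinct points `p_0, …, p_{n-1}` in `ℝ^d` whose convex hull is
`d`-dimensional, has exactly these points as its vertices, and has exactly the sets
`conv {p_i : i ∈ f}`, `f ∈ F`, as its facets. -/
def Realizable (d n : ℕ) (F : List (List ℕ)) : Prop :=
  ∃ p : Fin n → (Fin d → ℝ), Function.Injective p ∧
    affineSpan ℝ (Set.range p) = ⊤ ∧
    (convexHull ℝ (Set.range p)).extremePoints ℝ = Set.range p ∧
    ∀ Q : Set (Fin d → ℝ), IsFacet d (convexHull ℝ (Set.range p)) Q ↔
      ∃ f ∈ F, Q = convexHull ℝ (p '' {i | (i : ℕ) ∈ f})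

/-- The lists in `F` are `d`-element subsets of `{0, …, n-1}` (written without repetitions). -/
def Valid (d n : ℕ) (F : List (List ℕ)) : Prop :=
  ∀ f ∈ F, f.length = d ∧ f.Nodup ∧ ∀ i ∈ f, i < n

/-- The string `1^n 0` followed by the strings `1^i 0` for the elements `i` of the subsets. -/
def icode (n : ℕ) (F : List (List ℕ)) : List Bool :=
  List.replicate n true ++ false ::
    F.flatMap fun f => f.flatMap fun i => List.replicate i true ++ [false]

/-- The decision problem `SPR_d` as a set of strings. -/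
def SPR (d : ℕ) : Set (List Bool) :=
  {u | ∃ (n : ℕ) (F : List (List ℕ)), Valid d n F ∧ u = icode n F ∧ Realizable d n F}

/-- The existential theory of the reals as a set of strings. -/
def ETRL : Set (List Bool) :=
  {u | ∃ φ : ETR.Form, u = φ.code ∧ ∃ x : ℕ → ℝ, φ.Holds x}

/-- Polynomial-time many-one reducibility. -/
def PolyRed (A B : Set (List Bool)) : Prop :=
  ∃ f : List Bool → List Bool,
    Nonempty (Turing.TM2ComputableInPolyTime (fun l : List Bool => l) (fun l => l) f) ∧
    ∀ u, u ∈ A ↔ f u ∈ B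

end Pool.Agent.Helper54.SP
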