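import Pool.Agent.Helper54.SP.Base

/-!
Simplicial polytope realizability `SPR_d` in fixed dimension: definitions of the construction.
-/

namespace Pool.Agent.Helper54.SP

open Finset

/-! ### determinants and signs -/

/-- determinant of the `k` row vectors with indices in the list `l` -/
noncomputable def dt (k : ℕ) (X : ℕ → ℕ → ℝ) (l : List ℕ) : ℝ :=
  Matrix.det (Matrix.of fun i j : Fin k => X (l.getD i 0) j)

/-- a sign: `true` for plus, `false` for minus -/
def sb (b : Bool) : ℝ := if b then 1 else -1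

/-- the sign function `χ` gives the signs of all determinants of `k` distinct vectors -/
def Agree (k : ℕ) (X : ℕ → ℕ → ℝ) (n : ℕ) (χ : List ℕ → Bool) : Prop :=
  ∀ l : List ℕ, l.length = k → l.Nodup → (∀ i ∈ l, i < n) → 0 < sb (χ l) * dt k X l

/-- the first position of a list with the largest key -/
def amax (ρ : ℕ → ℕ) : List ℕ → ℕ
  | [] => 0
  | a :: l => if l.all (fun b => decide (ρ b ≤ ρ a)) then 0 else amax ρ l + 1

/-- lexicographic lifting of a sign function: remove the element with the largest key -/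
def lexs (ρ : ℕ → ℕ) (χ : List ℕ → Bool) (l : List ℕ) : Bool :=
  xor (decide ((amax ρ l + (l.length - 1)) % 2 = 1)) (χ (l.eraseIdx (amax ρ l)))

/-- `m` successive liftings -/
def chi (σ : List ℕ → Bool) (ρ : ℕ → ℕ → ℕ) : ℕ → List ℕ → Bool
  | 0, l => σ l
  | m + 1, l => lexs (ρ m) (chi σ ρ m) l

/-- increasing lists of length `d` with elements in `[lo, n)` -/
def subs : ℕ → ℕ → ℕ → List (List ℕ)
  | 0, _, _ => [[]]
  | d + 1, lo, n => (List.range n).flatMap fun i =>
      if lo ≤ i then (subs d (i + 1) n).map (i :: ·) else []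

/-- one-sidedness of a list for a sign function -/
def oneS (χ : List ℕ → Bool) (n : ℕ) (f : List ℕ) : Bool :=
  (List.range n).all fun x => (List.range n).all fun y =>
    f.elem x || f.elem y || (χ (f ++ [x]) == χ (f ++ [y]))

/-- the one-sided `d`-subsets -/
def facets (χ : List ℕ → Bool) (d n : ℕ) : List (List ℕ) :=
  (subs d 0 n).flatMap fun f => if oneS χ n f then [f] else []

/-- the sign function alternates on lists of length `k` of distinct numbers below `n` -/
def Alt (k n : ℕ) (χ : List ℕ → Bool) : Prop :=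
  ∀ (l₁ l₂ : List ℕ) (a b : ℕ), (l₁ ++ a :: b :: l₂).length = k → (l₁ ++ a :: b :: l₂).Nodup →
    (∀ i ∈ l₁ ++ a :: b :: l₂, i < n) → χ (l₁ ++ b :: a :: l₂) = !χ (l₁ ++ a :: b :: l₂)

/-- one-sidedness for real vectors -/
def OS (k : ℕ) (X : ℕ → ℕ → ℝ) (n : ℕ) (f : List ℕ) : Prop :=
  ∀ x y, x < n → y < n → x ∉ f → y ∉ f → 0 < dt k X (f ++ [x]) * dt k X (f ++ [y])

/-- the apices `N, …, N+m-1` -/
def apx (N m : ℕ) : List ℕ := (List.range m).map (N + ·)

/-- the apices without `N+c` -/
def aex (N m c : ℕ) : List ℕ := (apx N m).filter fun i => decide (i ≠ N + c)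

/-- the bracket: determinant of three vectors and all apices -/
noncomputable def br (N m : ℕ) (X : ℕ → ℕ → ℝ) (p q r : ℕ) : ℝ :=
  dt (3 + m) X ([p, q, r] ++ apx N m)

/-- planar vectors: `0` is the vertical direction, `1` the horizontal direction, the others are
the points `(x p, y p)` -/
noncomputable def pl (x y : ℕ → ℝ) (p j : ℕ) : ℝ :=
  if p = 0 then (if j = 1 then 1 else 0)
  else if p = 1 then (if j = 0 then 1 else 0)
  else if j = 0 then x p else if j = 1 then y p else 1

/-! ### gates and the combinatorial sign function -/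

/-- a gate: type (`true`: centre `(1,1)`, `false`: centre `(0,0)`), construction rank, and the
wires `u, u', a, a'` -/
abbrev Gt := Bool × ℕ × ℕ × ℕ × ℕ × ℕ

def Gt.k (g : Gt) : Bool := g.1
def Gt.c (g : Gt) : ℕ := g.2.1
def Gt.u (g : Gt) : ℕ := g.2.2.1
def Gt.u' (g : Gt) : ℕ := g.2.2.2.1
def Gt.a (g : Gt) : ℕ := g.2.2.2.2.1
def Gt.a' (g : Gt) : ℕ := g.2.2.2.2.2

/-- group of a point: `0` for the four centres, `s + 1` for the points of gate `s` -/
def grp (p : ℕ) : ℕ := (p + 4) / 8
/-- corner of a point -/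
def crn (p : ℕ) : ℕ := (p + 4) % 8
/-- the gate of a point -/
def gat (Γ : List Gt) (p : ℕ) : Gt := Γ.getD (grp p - 1) (false, 0, 0, 0, 0, 0)
/-- the wire of a point -/
def wir (Γ : List Gt) (p : ℕ) : ℕ :=
  if crn p / 2 = 0 then (gat Γ p).u else if crn p / 2 = 1 then (gat Γ p).u'
  else if crn p / 2 = 2 then (gat Γ p).a else (gat Γ p).a'

/-- order of the corners `A⁺ A⁻ B⁺ B⁻ C⁺ C⁻ D⁺ D⁻` from left to right -/
def xr (t : ℕ) : ℕ := [0, 3, 6, 5, 1, 2, 7, 4].getD t 0
/-- slopes inside the pairs `A, B` and `C, D` -/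
def sr (t : ℕ) : ℕ := [2, 1, 0, 3, 2, 1, 3, 0].getD t 0

/-- key of the abscissa -/
def xk (p : ℕ) : ℕ := if p < 4 then p - 2 else 8 * grp p - 6 + xr (crn p)
/-- key of the ordinate -/
def yk (Γ : List Gt) (p : ℕ) : ℕ :=
  if p < 4 then p - 2 else 2 + wir Γ p * (2 * Γ.length) +
    (if crn p % 2 = 0 then Γ.length + (gat Γ p).c else Γ.length - 1 - (gat Γ p).c)
/-- is the corner on the upper one of the two lines through the centre? -/
def hi (Γ : List Gt) (p : ℕ) : Bool :=
  if 4 ≤ crn p then decide ((gat Γ p).u < (gat Γ p).a) else decide ((gat Γ p).a < (gat Γ p).u)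
/-- key of the slope (increasing key means decreasing slope) -/
def sk (Γ : List Gt) (p : ℕ) : ℕ :=
  8 * (grp p - 1) + (7 - (sr (crn p) + if hi Γ p then 4 else 0))

/-- signs of triples of corners of one gate, given by their letters `0 ≤ a ≤ b ≤ c ≤ 3` -/
def tb (a b c : ℕ) (s : Bool) : Bool :=
  if a = b then
    (if a = 0 then (if c = 1 then true else s)
     else if a = 1 then !s
     else true)
  else if b = c then
    (if b = 1 then true
     else if b = 2 then !s
     else (if a = 2 then false else s))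
  else if a = 0 ∧ b = 1 then s else !s

/-- sign of a triple `(p, q, r)` with `q, r` in one gate and `p` in an earlier group -/
def dsg (Γ : List Gt) (p q r : ℕ) : Bool :=
  if p = (if (gat Γ q).k then 3 else 2) then decide (sk Γ r < sk Γ q)
  else if (crn q / 2 = 0 ∧ crn r / 2 = 1) ∨ (crn q / 2 = 1 ∧ crn r / 2 = 1) ∨
      (crn q / 2 = 2 ∧ crn r / 2 = 3) then
    xor (decide (p = 2 ∧ (gat Γ q).k = true)) (decide (xk q < xk r))
  else decide (yk Γ q < yk Γ r)

/-- sign of an increasing triple -/
def sg0 (Γ : List Gt) (p q r : ℕ) : Bool :=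
  if p = 0 then (if q = 1 then false else decide (xk q < xk r))
  else if p = 1 then decide (yk Γ r < yk Γ q)
  else if grp q < grp r then decide (yk Γ q < yk Γ p)
  else if grp p < grp q then dsg Γ p q r
  else tb (crn p / 2) (crn q / 2) (crn r / 2) (decide ((gat Γ q).u < (gat Γ q).a))

/-- sign of a triple -/
def sg3 (Γ : List Gt) (p q r : ℕ) : Bool :=
  if p < q then (if q < r then sg0 Γ p q r else if p < r then !sg0 Γ p r q else sg0 Γ r p q)
  else (if p < r then !sg0 Γ q p r else if q < r then sg0 Γ q r p else !sg0 Γ r q p)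

/-- the planar sign function -/
def sgm (Γ : List Gt) (l : List ℕ) : Bool := sg3 Γ (l.getD 0 0) (l.getD 1 0) (l.getD 2 0)

/-- number of points in the plane -/
def NN (Γ : List Gt) : ℕ := 4 + 8 * Γ.length

/-- a bound for all keys -/
def BG (Γ : List Gt) (nw : ℕ) : ℕ := 100 + 16 * Γ.length + 2 * Γ.length * (nw + 1)

/-- the orders of the layers -/
def rk (Γ : List Gt) (nw c p : ℕ) : ℕ :=
  if c = 1 then (if p = 1 then 0 else if p = 0 then BG Γ nw else 1 + yk Γ p)
  else if c = 2 then
    (if p = 3 then 0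
     else if p = 2 then 1 + 8 * (Γ.countP fun g => g.1)
     else if p = 0 then BG Γ nw else if p = 1 then BG Γ nw + 1
     else if (gat Γ p).k then 1 + sk Γ p else 2 + sk Γ p)
  else (if p = 0 then 0 else if p = 1 then BG Γ nw else 1 + xk p)

/-- the keys of the layers, including the apices -/
def rho (Γ : List Gt) (nw c p : ℕ) : ℕ :=
  if p < NN Γ then c + rk Γ nw c p
  else if p = NN Γ + c then c + BG Γ nw + 5 else p - NN Γ

/-- the sign function of the polytope -/
def chF (Γ : List Gt) (nw m : ℕ) (l : List ℕ) : Bool := chi (sgm Γ) (rho Γ nw) m l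

/-- the facets of the polytope -/
def fac (Γ : List Gt) (nw m : ℕ) : List (List ℕ) :=
  facets (chF Γ nw m) (2 + m) (NN Γ + m)

end Pool.Agent.Helper54.SP
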